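import Pool.Agent.Lib.DK.PI.SpecC

/-!
# THEOREM DK, Part I: Chinese remainder and surjectivity of the norm (helper50)
-/

set_option autoImplicit false

open scoped Pointwise

namespace Pool.Agent.DK.PI

open Pool.Agent.MuZ Pool.Agent.DK

private theorem Ar2_crt {k : ℕ} (f N : ℕ) (a b : OO k) (hf : Odd f) :
    ∃ v : OO k, (f : OO k) ∣ v - a ∧ ((2 ^ N : ℕ) : OO k) ∣ v - b := by
  have h1 : f.Coprime (2 ^ N) := (Nat.Coprime.pow_right N hf.coprime_two_right)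
  obtain ⟨x, y, hxy⟩ : IsCoprime (f : OO k) ((2 ^ N : ℕ) : OO k) := Nat.Coprime.cast h1
  refine ⟨a * y * ((2 ^ N : ℕ) : OO k) + b * x * (f : OO k), ⟨x * (b - a), ?_⟩,
    ⟨y * (a - b), ?_⟩⟩
  · linear_combination a * hxy
  · linear_combination b * hxy

private theorem Ar2_unit (N : ℕ) (t : ZMod (2 ^ N)) : IsUnit (1 + 2 * t) := by
  apply IsNilpotent.isUnit_one_add
  have h2 : IsNilpotent (2 : ZMod (2 ^ N)) := by
    refine ⟨N, ?_⟩
    have h := ZMod.natCast_self (2 ^ N)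
    rw [Nat.cast_pow] at h
    exact_mod_cast h
  exact (Commute.all _ _).isNilpotent_mul_right h2

private theorem Ar2_surj (k N : ℕ) (c : ℤ) :
    ∃ y : ℤ, (2 : ℤ) ^ N ∣ y + 2 * k * y ^ 2 - (c - 1) := by
  have hne : NeZero (2 ^ N) := ⟨pow_ne_zero _ two_ne_zero⟩
  have hinj : Function.Injective (fun y : ZMod (2 ^ N) => y + 2 * (k : ZMod (2 ^ N)) * y ^ 2) := by
    intro y y' h
    have h1 : (y - y') * (1 + 2 * ((k : ZMod (2 ^ N)) * (y + y'))) = 0 := by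
      have h2 : y + 2 * (k : ZMod (2 ^ N)) * y ^ 2 = y' + 2 * (k : ZMod (2 ^ N)) * y' ^ 2 := h
      linear_combination h2
    have h3 := (Ar2_unit N ((k : ZMod (2 ^ N)) * (y + y'))).mul_left_eq_zero.1 h1
    exact sub_eq_zero.1 h3
  have hs := Finite.injective_iff_surjective.1 hinj
  obtain ⟨y0, hy0⟩ := hs ((c - 1 : ℤ) : ZMod (2 ^ N))
  obtain ⟨y, rfl⟩ := ZMod.intCast_surjective y0
  refine ⟨y, ?_⟩
  have h4 : ((y + 2 * k * y ^ 2 - (c - 1) : ℤ) : ZMod (2 ^ N)) = 0 := by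
    have h5 : (y : ZMod (2 ^ N)) + 2 * (k : ZMod (2 ^ N)) * (y : ZMod (2 ^ N)) ^ 2 =
      ((c - 1 : ℤ) : ZMod (2 ^ N)) := hy0
    push_cast at h5 ⊢
    linear_combination h5
  have h6 := (ZMod.intCast_zmod_eq_zero_iff_dvd _ _).1 h4
  rw [Nat.cast_pow] at h6
  exact h6

theorem pAr2 : S_Ar2 := by
  intro k _
  refine ⟨Ar2_crt, ?_⟩
  intro f N c hf _
  obtain ⟨y, hy⟩ := Ar2_surj k N c
  obtain ⟨v, hv1, u, hv2⟩ := Ar2_crt f N 1 (⟨1, y⟩ : OO k) hf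
  refine ⟨v, hv1, ?_⟩
  have h1 : v = (⟨1, y⟩ : OO k) + ((2 ^ N : ℕ) : OO k) * u := by rw [← hv2]; ring
  have hr : v.re = 1 + ((2 ^ N : ℕ) : ℤ) * u.re := by
    rw [h1, QuadraticAlgebra.re_add, QuadraticAlgebra.re_mul, QuadraticAlgebra.re_natCast,
      QuadraticAlgebra.im_natCast]
    ring
  have hi : v.im = y + ((2 ^ N : ℕ) : ℤ) * u.im := by
    rw [h1, QuadraticAlgebra.im_add, QuadraticAlgebra.im_mul, QuadraticAlgebra.re_natCast,
      QuadraticAlgebra.im_natCast]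
    ring
  rw [Nat.cast_pow] at hr hi
  have hN : ((2 : ℕ) : ℤ) = 2 := rfl
  rw [hN] at hr hi
  obtain ⟨m, hm⟩ := hy
  refine ⟨m + 2 * u.re + 2 ^ N * u.re ^ 2 + u.im + u.re * y + 2 ^ N * u.re * u.im +
    4 * k * y * u.im + 2 * k * 2 ^ N * u.im ^ 2, ?_⟩
  unfold Nm
  rw [hr, hi]
  linear_combination hm

end Pool.Agent.DK.PI
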