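import Pool.Agent.Lib.DK.PI.SpecC
import Pool.Agent.Lib.DK.Ded

/-!
# Theorem DK, Part I, module Ar3: exponents
-/

set_option autoImplicit false

open scoped Pointwise nonZeroDivisors

noncomputable section

namespace Pool.Agent.DK.PI

open Pool.Agent.MuZ Pool.Agent.DK NumberField IsDedekindDomain
open Pool.Agent.DI (io ofC io_inj exists_io io_ofC ofC_io VP MP UP TP ex sqr sqr_sq kap)

variable {k : ℕ}

private theorem Ar3_top (k N : ℕ) [SqK k] : Gd N (⊤ : Ideal (OO k)) := ⟨top_ne_bot, top_sup_eq _⟩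

private theorem Ar3_pri_of_pow {N n : ℕ} {a : Ideal (OO k)} (hn : n ≠ 0) (h : PrI (a ^ n) N) :
    PrI a N := by
  unfold PrI at *
  rw [eq_top_iff, ← h]
  exact sup_le_sup_right (Ideal.pow_le_self hn) _

private theorem Ar3_gd_pow [SqK k] (hO6 : S_O6) {N : ℕ} {a : Ideal (OO k)} (h : Gd N a) (n : ℕ) :
    Gd N (a ^ n) := by
  induction n with
  | zero =>
    rw [pow_zero, Ideal.one_eq_top]
    exact Ar3_top k N
  | succ n ih =>
    rw [pow_succ]
    refine ⟨?_, ((hO6 k).1 N _ _).2 ⟨ih.2, h.2⟩⟩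
    have h1 : a ^ n * a ≠ 0 := mul_ne_zero (by simpa using ih.1) (by simpa using h.1)
    simpa using h1

private theorem Ar3_ray_pow [SqK k] (hO7 : S_O7) {N : ℕ} (hN : 0 < N) {a b : Ideal (OO k)}
    (h : Ray N a b) (n : ℕ) : Ray N (a ^ n) (b ^ n) := by
  obtain ⟨hr, -, -, hm, -⟩ := hO7 k N hN
  induction n with
  | zero =>
    rw [pow_zero, pow_zero]
    exact hr _
  | succ n ih =>
    rw [pow_succ, pow_succ]
    exact hm _ _ _ _ ih h

/-- The class function and its powers. -/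
private theorem Ar3_cls [SqK k] (hCg : S_Cg) (hO1 : S_O1) (hO6 : S_O6) (hO7 : S_O7) {N : ℕ}
    (hN : 0 < N) : ∃ (C : Type) (_ : CommGroup C) (_ : Finite C) (c : Ideal (OO k) → C),
      (∀ a : Ideal (OO k), Gd N a → ∀ n : ℕ, c (a ^ n) = c a ^ n) ∧
      ∀ a : Ideal (OO k), Gd N a → (Ray N a ⊤ ↔ c a = 1) := by
  obtain ⟨C, i1, i2, c, h1, h2, -⟩ := hCg hO1 hO6 hO7 k N hN
  have ht : c ⊤ = 1 := by
    have h := h1 ⊤ ⊤ (Ar3_top k N) (Ar3_top k N)
    rw [Ideal.mul_top] at h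
    exact (mul_eq_left.1 h.symm)
  refine ⟨C, i1, i2, c, ?_, ?_⟩
  · intro a ha n
    induction n with
    | zero => rw [pow_zero, pow_zero, Ideal.one_eq_top, ht]
    | succ n ih => rw [pow_succ, pow_succ, h1 _ _ (Ar3_gd_pow hO6 ha n) ha, ih]
  · intro a ha
    rw [← h2 a ⊤ ha (Ar3_top k N), ht]

private theorem Ar3_two {v : OO k} (h : Cop v 2) : (2 : OO k) ∣ v - 1 := by
  have h1 : ¬ (2 : ℤ) ∣ Nm v := by
    intro h2
    have h3 : IsUnit ((2 : ℕ) : ℤ) := h.isUnit_of_dvd' (by exact_mod_cast h2) dvd_rfl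
    rw [Int.isUnit_iff] at h3
    omega
  have e : Nm v = v.re * (v.re + v.im) + 2 * (k * v.im ^ 2) := by
    unfold Nm
    ring
  have h2 : ¬ (2 : ℤ) ∣ v.re := fun h3 => h1 (by
    rw [e]
    exact dvd_add (h3.mul_right _) (dvd_mul_right _ _))
  have h3 : ¬ (2 : ℤ) ∣ v.re + v.im := fun h3 => h1 (by
    rw [e]
    exact dvd_add (h3.mul_left _) (dvd_mul_right _ _))
  have h4 := (nat_dvd_iff 2 (v - 1)).2 ⟨by
    rw [QuadraticAlgebra.re_sub, re_one]
    push_cast
    omega, by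
    rw [QuadraticAlgebra.im_sub, im_one]
    push_cast
    omega⟩
  rwa [Nat.cast_ofNat] at h4

private theorem Ar3_pow2 {v : OO k} (h : (2 : OO k) ∣ v - 1) (i : ℕ) :
    (2 : OO k) ^ (i + 1) ∣ v ^ 2 ^ i - 1 := by
  induction i with
  | zero => simpa using h
  | succ i ih =>
    obtain ⟨u, hu⟩ := ih
    have e : v ^ 2 ^ (i + 1) = (v ^ 2 ^ i) ^ 2 := by
      rw [← pow_mul, pow_succ]
    have e2 : v ^ 2 ^ i = 1 + 2 ^ (i + 1) * u := by
      linear_combination hu
    rw [e, e2]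
    refine ⟨u + 2 ^ i * u ^ 2, ?_⟩
    ring

private theorem Ar3_dvd_mul {f n : ℕ} (hc : f.Coprime n) {v : OO k} (h1 : (f : OO k) ∣ v)
    (h2 : (n : OO k) ∣ v) : ((f * n : ℕ) : OO k) ∣ v := by
  obtain ⟨a1, b1⟩ := (nat_dvd_iff f v).1 h1
  obtain ⟨a2, b2⟩ := (nat_dvd_iff n v).1 h2
  have hc' : IsCoprime (f : ℤ) (n : ℤ) := Nat.isCoprime_iff_coprime.2 hc
  rw [nat_dvd_iff]
  push_cast
  exact ⟨hc'.mul_dvd a1 a2, hc'.mul_dvd b1 b2⟩

private theorem Ar3_cancel {R : Type} [CommRing R] [IsDomain R] {α α' : R} {B : Ideal R}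
    (hα : α ≠ 0) (h : Ideal.span {α} * B = Ideal.span {α'}) :
    ∃ v : R, α' = α * v ∧ B = Ideal.span {v} := by
  have h0 : α' ∈ Ideal.span {α} * B := by
    rw [h]
    exact Ideal.mem_span_singleton_self _
  obtain ⟨v, hvB, hv⟩ := Ideal.mem_span_singleton_mul.1 h0
  refine ⟨v, hv.symm, le_antisymm ?_ ?_⟩
  · intro x hx
    have h1 : α * x ∈ Ideal.span {α'} := by
      rw [← h]
      exact Ideal.mem_span_singleton_mul.2 ⟨x, hx, rfl⟩
    obtain ⟨c, hc⟩ := Ideal.mem_span_singleton'.1 h1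
    refine Ideal.mem_span_singleton'.2 ⟨c, mul_left_cancel₀ hα ?_⟩
    rw [← hv] at hc
    linear_combination hc
  · rw [Ideal.span_singleton_le_iff_mem]
    exact hvB

theorem pAr3 : S_Ar3 := by
  intro hCg hO1 hO2 hO4 hO6 hO7 k _
  constructor
  · intro f hf
    have hf0 : 0 < f := hf.pos
    obtain ⟨hr, hs, htr, hm, -, hcop, -⟩ := hO7 k f hf0
    obtain ⟨C, i1, i2, c, hcp, hc1⟩ := Ar3_cls (k := k) hCg hO1 hO6 hO7 hf0
    have hcard : Nat.card C ≠ 0 := Nat.card_pos.ne'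
    obtain ⟨t, m, hmo, hcm⟩ := Nat.exists_eq_two_pow_mul_odd hcard
    have hexp : ∀ x : C, x ^ (2 ^ t * m) = 1 := fun x => by
      rw [← hcm]
      exact pow_card_eq_one'
    refine ⟨⟨m, hmo, ?_⟩, ?_, ?_⟩
    · intro a ha
      refine ⟨t, ?_⟩
      rw [← pow_mul, hc1 _ (Ar3_gd_pow hO6 ha _), hcp a ha, mul_comm]
      exact hexp _
    · intro N
      refine ⟨t + N, ?_⟩
      intro a ha h2
      have hM0 : 0 < f * 2 ^ N := by positivity
      obtain ⟨hO6a, hO6b, hO6c, hO6d, -⟩ := hO6 k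
      have haf : Gd f a := ⟨ha.1, ((hO6b f (2 ^ N) a).1 ha.2).1⟩
      obtain ⟨j, hj⟩ := h2
      have hx1 : c a ^ 2 ^ j = 1 := by
        rw [← hcp a haf]
        exact (hc1 _ (Ar3_gd_pow hO6 haf _)).1 hj
      have hx2 : c a ^ 2 ^ t = 1 := by
        apply orderOf_dvd_iff_pow_eq_one.1
        have h3 : orderOf (c a) ∣ 2 ^ j := orderOf_dvd_of_pow_eq_one hx1
        have h4 : orderOf (c a) ∣ 2 ^ t * m := orderOf_dvd_of_pow_eq_one (hexp _)
        have h5 : (orderOf (c a)).Coprime m :=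
          Nat.Coprime.coprime_dvd_left h3
            (Nat.Coprime.pow_left j ((Nat.coprime_two_left).2 hmo))
        exact h5.dvd_of_dvd_mul_right h4
      have hB : Ray f (a ^ 2 ^ t) ⊤ := by
        rw [hc1 _ (Ar3_gd_pow hO6 haf _), hcp a haf]
        exact hx2
      obtain ⟨α, α', hα, hα', hcα, -, hd, hsp⟩ := hB
      rw [Ideal.mul_top] at hsp
      obtain ⟨v, hv', hBv⟩ := Ar3_cancel hα hsp
      have hv0 : v ≠ 0 := by
        rintro rfl
        rw [mul_zero] at hv'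
        exact hα' hv'
      have hfv : (f : OO k) ∣ v - 1 := by
        obtain ⟨b, -, hb⟩ := cop_inv hcα
        have h9 : (f : OO k) ∣ α * (v - 1) := by
          have e : α * (v - 1) = -(α - α') := by rw [hv']; ring
          rw [e]
          exact hd.neg_right
        have e : v - 1 = b * (α * (v - 1)) - (α * b - 1) * (v - 1) := by ring
        rw [e]
        exact dvd_sub (h9.mul_left b) (hb.mul_right _)
      have h2v : ((2 ^ N : ℕ) : OO k) ∣ v ^ 2 ^ N - 1 := by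
        rcases Nat.eq_zero_or_pos N with rfl | hN
        · simp
        · have h10 : PrI (Ideal.span {v}) (f * 2 ^ N) := by
            rw [← hBv]
            exact (Ar3_gd_pow hO6 ha _).2
          have h11 : Cop v (f * 2 ^ N) := (hO6d _ v hM0).1 h10
          have h12 : Cop v 2 := cop_dvd h11 ((dvd_pow_self 2 hN.ne').mul_left f)
          have h13 := Ar3_pow2 (Ar3_two h12) N
          push_cast
          exact (pow_dvd_pow 2 (Nat.le_succ N)).trans h13
      have hfw : (f : OO k) ∣ v ^ 2 ^ N - 1 := by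
        refine hfv.trans ?_
        have := sub_dvd_pow_sub_pow v 1 (2 ^ N)
        rwa [one_pow] at this
      have hMw : ((f * 2 ^ N : ℕ) : OO k) ∣ v ^ 2 ^ N - 1 :=
        Ar3_dvd_mul (Nat.Coprime.pow_right N ((Nat.coprime_two_right).2 hf)) hfw h2v
      have hw : a ^ 2 ^ (t + N) = sp (v ^ 2 ^ N) := by
        rw [pow_add, pow_mul, hBv]
        exact Ideal.span_singleton_pow v (2 ^ N)
      rw [hw]
      refine ⟨1, v ^ 2 ^ N, one_ne_zero, pow_ne_zero _ hv0, cop_one _, ?_, ?_, ?_⟩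
      · refine cop_congr ?_ (cop_one (k := k) (f * 2 ^ N))
        rw [← neg_sub]
        exact hMw.neg_right
      · rw [← neg_sub]
        exact hMw.neg_right
      · rw [Ideal.mul_top, Ideal.span_singleton_one, Ideal.top_mul]
    · refine ⟨⟨0, ?_⟩, ?_, ?_, ?_⟩
      · rw [pow_zero, pow_one]
        exact hr _
      · rintro a ⟨j, hj⟩
        obtain ⟨h1, h2⟩ := hcop _ _ hj
        have hn : 2 ^ j ≠ 0 := by positivity
        refine ⟨?_, Ar3_pri_of_pow hn (h2.2 (Ar3_top k f).2)⟩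
        rintro rfl
        apply h1.2 top_ne_bot
        have : (0 : Ideal (OO k)) ^ 2 ^ j = 0 := zero_pow hn
        simpa using this
      · rintro a a' ⟨j, hj⟩ haa
        exact ⟨j, htr _ _ _ (hs _ _ (Ar3_ray_pow hO7 hf0 haa _)) hj⟩
      · rintro a a' ⟨j, hj⟩ ⟨j', hj'⟩
        refine ⟨j + j', ?_⟩
        have e : (a * a') ^ 2 ^ (j + j') = (a ^ 2 ^ j) ^ 2 ^ j' * (a' ^ 2 ^ j') ^ 2 ^ j := by
          rw [mul_pow, ← pow_mul, ← pow_mul, pow_add, mul_comm (2 ^ j') (2 ^ j)]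
        have h1 := Ar3_ray_pow hO7 hf0 hj (2 ^ j')
        have h2 := Ar3_ray_pow hO7 hf0 hj' (2 ^ j)
        have h3 := hm _ _ _ _ h1 h2
        rw [← Ideal.one_eq_top, one_pow, one_pow, one_mul, Ideal.one_eq_top] at h3
        rw [e]
        exact h3
  · intro N H hN hH a ha
    obtain ⟨C, i1, i2, c, hcp, hc1⟩ := Ar3_cls (k := k) hCg hO1 hO6 hO7 hN
    have hpow : ∀ n : ℕ, H (a ^ n) := by
      intro n
      induction n with
      | zero =>
        rw [pow_zero, Ideal.one_eq_top]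
        exact hH.top
      | succ n ih =>
        rw [pow_succ]
        exact hH.mul _ _ ih ha
    have hcard : 0 < Nat.card C := Nat.card_pos
    refine ⟨a ^ (Nat.card C - 1), hpow _, ?_⟩
    have hga : Gd N a := hH.cop a ha
    have e : a * a ^ (Nat.card C - 1) = a ^ Nat.card C := by
      rw [← pow_succ', Nat.sub_add_cancel hcard]
    rw [e, hc1 _ (Ar3_gd_pow hO6 hga _), hcp a hga]
    exact pow_card_eq_one'

end Pool.Agent.DK.PI
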