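import Pool.Agent.Lib.DK.PI.SpecC
import Pool.Agent.Lib.DK.Base

set_option autoImplicit false

/-!
# THEOREM DK, Part I: the lift of a character
-/

open scoped Pointwise

noncomputable section

namespace Pool.Agent.DK.PI

open Pool.Agent.MuZ Pool.Agent.DK

/-- `σ⁻¹` acts as `a`. -/
private def Chi_R {k : ℕ} (f : ℕ) (σ : Gal(Om/ℚ)) (a : Ideal (OO k)) : Prop :=
  σ ∈ GK k ∧ Psi σ⁻¹ f a

open Classical in
/-- The lift. -/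
private def Chi_c {k : ℕ} {P : Ideal ZZ} (f : ℕ) (χb : Gal(Om/ℚ) → ZZ ⧸ P) (t : ZZ ⧸ P → ZZ)
    (a : Ideal (OO k)) : ZZ :=
  if h : ∃ σ, Chi_R f σ a then t (χb h.choose) else 0

theorem pChi : S_Chi := by
  intro hTei hPs0 hGal0 hAr30 hCg hO1 hO2 hO4 hO6 hO7 hE1 hE7 hE8 k _ f hf P hP h2 χb hmul hL
  have hf0 : 0 < f := hf.pos
  obtain ⟨ps1, ps2, ps3, -, -⟩ := hPs0 hO7 hE1 k f hf0
  obtain ⟨e1, e2, e3, e4, -⟩ := hE1 k f hf0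
  obtain ⟨r1, r2, r3, r4, -⟩ := hO7 k f hf0
  obtain ⟨⟨m, hm, hmH⟩, -, hNice⟩ := (hAr30 hCg hO1 hO2 hO4 hO6 hO7 k).1 f hf
  obtain ⟨⟨t, ht⟩, -⟩ := hTei P hP h2 m hm
  obtain ⟨-, -, -, hgal, -⟩ := hGal0 hO7 hE1 hE8 hPs0 k f (H2 f) hf0 hNice
  have hgal' : ∀ τ ∈ GK k, ∀ a : Ideal (OO k), Psi τ f a → H2 f a → χb τ = 1 :=
    fun τ hτ a ha hH => hL τ ((hgal τ hτ a ha).2 hH)
  have hRex : ∀ a : Ideal (OO k), Gd f a → ∃ σ, Chi_R f σ a := by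
    intro a ha
    obtain ⟨τ, hτ, h⟩ := hE7 k f a hf0 ha.1 ha.2
    refine ⟨τ⁻¹, inv_mem hτ, ?_⟩
    rw [inv_inv]
    exact h
  -- fact 1
  have fact1 : ∀ (σ σ' : Gal(Om/ℚ)) (a a' : Ideal (OO k)), Chi_R f σ a → Chi_R f σ' a' →
      Ray f a a' → χb σ = χb σ' := by
    intro σ σ' a a' hσ hσ' hr
    obtain ⟨c, hc1, hc2⟩ := ps2 σ⁻¹ (inv_mem hσ.1) a hσ.2
    rw [inv_inv] at hc1
    have hρ : Psi (σ'⁻¹ * σ) f (a' * c) := e4 _ _ _ _ hσ'.2 hc1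
    have hρG : σ'⁻¹ * σ ∈ GK k := mul_mem (inv_mem hσ'.1) hσ.1
    have h3 : Ray f (⊤ : Ideal (OO k)) (a' * c) :=
      r2 _ _ (r3 _ _ _ (r4 _ _ _ _ (r2 _ _ hr) (r1 c)) hc2)
    have h4 := hgal' _ hρG _ hρ (hNice.ray _ _ hNice.top h3)
    have h5 := hmul σ' hσ'.1 (σ'⁻¹ * σ) hρG
    rw [h4, mul_one, mul_inv_cancel_left] at h5
    exact h5
  -- fact 2
  have hpow : ∀ σ ∈ GK k, ∀ n : ℕ, χb (σ ^ n) = χb σ ^ n := by
    intro σ hσ n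
    induction n with
    | zero =>
      rw [pow_zero, pow_zero]
      exact hL 1 (one_mem _)
    | succ n ih => rw [pow_succ, pow_succ, hmul _ (pow_mem hσ n) _ hσ, ih]
  have fact2 : ∀ σ ∈ GK k, χb σ ^ m = 1 := by
    intro σ hσ
    obtain ⟨a, ha⟩ := e1 σ hσ
    rw [← hpow σ hσ m]
    exact hgal' _ (pow_mem hσ m) _ (ps3 σ a m ha) (hmH a ⟨ha.ne, ha.cop⟩)
  -- the lift
  have hc : ∀ (σ : Gal(Om/ℚ)) (a : Ideal (OO k)), Chi_R f σ a → Chi_c f χb t a = t (χb σ) := by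
    intro σ a hσ
    have hex : ∃ σ, Chi_R f σ a := ⟨σ, hσ⟩
    unfold Chi_c
    rw [dif_pos hex]
    rw [fact1 _ _ a a hex.choose_spec hσ (r1 a)]
  have hc0 : ∀ a : Ideal (OO k), ¬ Gd f a → Chi_c f χb t a = 0 := by
    intro a ha
    unfold Chi_c
    rw [dif_neg]
    rintro ⟨σ, hσ⟩
    exact ha ⟨hσ.2.ne, hσ.2.cop⟩
  refine ⟨Chi_c f χb t, ⟨⟨?_, ?_⟩, ?_, ⟨m, hm, ?_⟩⟩, ?_, ⟨m, hm, fact2⟩⟩
  · intro a ha
    have h3 : ¬ Gd f a := by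
      rintro ⟨h4, h5⟩
      rcases ha with h | h
      · exact h4 h
      · exact h h5
    change ((Chi_c f χb t a : ZZ) : Om) = 0
    rw [hc0 a h3, ZeroMemClass.coe_zero]
  · intro a a' ha ha' hp hp' hr
    obtain ⟨σ, hσ⟩ := hRex a ⟨ha, hp⟩
    obtain ⟨σ', hσ'⟩ := hRex a' ⟨ha', hp'⟩
    rw [hc σ a hσ, hc σ' a' hσ', fact1 σ σ' a a' hσ hσ' hr]
  · intro a b
    by_cases ha : Gd f a
    · by_cases hb : Gd f b
      · obtain ⟨σ, hσ⟩ := hRex a ha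
        obtain ⟨τ, hτ⟩ := hRex b hb
        have hστ : Chi_R f (σ * τ) (a * b) := by
          refine ⟨mul_mem hσ.1 hτ.1, ?_⟩
          rw [mul_inv_rev, mul_comm a b]
          exact e4 _ _ _ _ hτ.2 hσ.2
        have h4 := (ht (χb σ) (fact2 σ hσ.1)).2.2 (χb τ) (fact2 τ hτ.1)
        rw [hc σ a hσ, hc τ b hτ, hc _ _ hστ, hmul σ hσ.1 τ hτ.1, h4]
        push_cast
        rfl
      · have h3 : ¬ Gd f (a * b) := by
          rintro ⟨h5, h6⟩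
          refine hb ⟨?_, (((hO6 k).1 f a b).1 h6).2⟩
          rintro rfl
          exact h5 (Ideal.mul_bot a)
        rw [hc0 b hb, hc0 _ h3, ZeroMemClass.coe_zero, mul_zero]
    · have h3 : ¬ Gd f (a * b) := by
        rintro ⟨h5, h6⟩
        refine ha ⟨?_, (((hO6 k).1 f a b).1 h6).1⟩
        rintro rfl
        exact h5 (Ideal.bot_mul b)
      rw [hc0 a ha, hc0 _ h3, ZeroMemClass.coe_zero, zero_mul]
  · intro a ha hp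
    obtain ⟨σ, hσ⟩ := hRex a ⟨ha, hp⟩
    rw [hc σ a hσ]
    have h3 := (ht (χb σ) (fact2 σ hσ.1)).1
    exact congrArg (fun x : ZZ => (x : Om)) h3
  · intro σ hσ a ha
    have hR : Chi_R f σ a := ⟨hσ, ha⟩
    rw [hc σ a hR]
    exact (ht (χb σ) (fact2 σ hσ)).2.1

end Pool.Agent.DK.PI
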