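import Pool.Agent.Lib.DK.PI.SpecC

/-!
# THEOREM DK, Part I, module DS: the system `D`
-/

set_option autoImplicit false

open scoped Pointwise

namespace Pool.Agent.DK.PI

open Pool.Agent.MuZ Pool.Agent.DK
open Pool.Agent.DI (io ofC io_inj exists_io io_ofC ofC_io VP MP UP TP ex sqr sqr_sq kap)
open Pool.Agent.DI.PI (Reps HypI Meas tr)

private theorem DS_one (k : ℕ) : Nm (1 : OO k) = 1 := by
  change (1 : ℤ) ^ 2 + 1 * 0 + 2 * (k : ℤ) * 0 ^ 2 = 1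
  ring

/-- an element `v ≡ 1` modulo `f` with odd norm -/
private theorem DS_v (hO2 : S_O2) (hO6 : S_O6) (k : ℕ) [SqK k] (f N : ℕ) (hf : 0 < f) (v : OO k)
    (hv1 : (f : OO k) ∣ v - 1) (hNv : Odd (Nm v)) :
    sp v ≠ (⊥ : Ideal (OO k)) ∧ PrI (sp v) (f * 2 ^ N) ∧ Ray f (⊤ : Ideal (OO k)) (sp v) := by
  obtain ⟨-, -, nmz, -, -, -, -, -⟩ := hO2 k
  obtain ⟨-, -, -, o4, -⟩ := hO6 k
  have hM : 0 < f * 2 ^ N := Nat.mul_pos hf (pow_pos two_pos _)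
  have hv0 : v ≠ 0 := by
    intro h
    rw [h] at hNv
    have h1 : Nm (0 : OO k) = 0 := (nmz 0).2 rfl
    rw [h1] at hNv
    exact absurd hNv (by decide)
  have hcf : PrI (sp v) f := by
    change sp v ⊔ Ideal.span {(f : OO k)} = ⊤
    rw [Ideal.eq_top_iff_one]
    obtain ⟨w, hw⟩ := hv1
    have h1 : (1 : OO k) = v + -((f : OO k) * w) := by rw [← hw]; ring
    rw [h1]
    exact Submodule.add_mem_sup (Ideal.mem_span_singleton_self v)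
      (neg_mem (Ideal.mul_mem_right w _ (Ideal.mem_span_singleton_self _)))
  have hcvf : Cop v f := (o4 f v hf).1 hcf
  have hcv : Cop v (f * 2 ^ N) := by
    change IsCoprime (Nm v) ((f * 2 ^ N : ℕ) : ℤ)
    push_cast
    refine IsCoprime.mul_right hcvf ?_
    exact IsCoprime.pow_right (Int.isCoprime_iff_gcd_eq_one.2 (by
      rw [Int.gcd_comm]
      exact Int.isCoprime_iff_gcd_eq_one.1 ((Int.prime_two.coprime_iff_not_dvd).2 (by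
        intro h
        obtain ⟨m, hm⟩ := hNv
        omega))))
  refine ⟨fun h => hv0 (Ideal.span_singleton_eq_bot.1 h), (o4 _ v hM).2 hcv, ?_⟩
  refine ⟨v, 1, hv0, one_ne_zero, hcvf, ?_, hv1, ?_⟩
  · change IsCoprime (Nm (1 : OO k)) (f : ℤ)
    rw [DS_one]
    exact isCoprime_one_left
  · rw [Ideal.mul_top, Ideal.span_singleton_one, Ideal.top_mul]

theorem pDS : S_DS := by
  intro hCg hAr2 hAr3 hNiL hPs hGalI hKF1 hLM hO1 hO2 hO4 hO6 hO7 hO8 hO9 hE1 hE7 hE8 hE9 hGM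
    k _ f n hf h3
  classical
  have hf0 : 0 < f := hf.pos
  have h2N : 0 < 2 ^ (n + 2) := pow_pos two_pos _
  have hM : 0 < f * 2 ^ (n + 2) := Nat.mul_pos hf0 h2N
  obtain ⟨e1, e2, -, e4, e5⟩ := hE1 k _ hM
  obtain ⟨r1, r2, r3, r4, -, -, -, -, -, -⟩ := hO7 k f hf0
  obtain ⟨-, -, -, -, -, -, r7, -, -, -⟩ := hO7 k _ hM
  obtain ⟨-, -, -, nmI, nIm, -, -, -⟩ := hO2 k
  obtain ⟨o1, o2, o3, -, -⟩ := hO6 k
  obtain ⟨-, s2, -, -, s5⟩ := hPs hO7 hE1 k _ hM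
  -- the field `E`
  obtain ⟨hn1, -⟩ := hKF1 hO1 hO7 hE1 hE8 hPs hGalI k
  have hnE := hNiL hO1 hO2 hO6 hO7 hO9 k 1 _ Nat.one_pos hn1 n
  obtain ⟨-, -, EGK, Emem, -, -, -, -⟩ :=
    hGalI hO7 hE1 hE8 hPs k _ _ (Nat.mul_pos Nat.one_pos h2N) hnE
  change (Kn k n).fixingSubgroup ≤ GK k at EGK
  -- the field `F`
  obtain ⟨hLG, hlm⟩ := hLM hCg hAr3 hNiL hPs hGalI hO1 hO2 hO4 hO6 hO7 hO9 hE1 hE8 hE9 hGM k f hf h3
  obtain ⟨hLL, hML, -, -, -, -, -, Mcon, -, Mmem⟩ := hlm n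
  obtain ⟨⟨hp1, hp2, hp3, hp4⟩, hpn, -⟩ := hGM k f hf h3
  have hMG : (Mn k f (n + 2)).fixingSubgroup ≤ GK k := (hML.trans hLL).trans hLG
  have hMm : ∀ τ ∈ GK k, ∀ a : Ideal (OO k), Psi τ (f * 2 ^ (n + 2)) a →
      (τ ∈ (Mn k f (n + 2)).fixingSubgroup ↔ HP f a ∧ Nm1 (n + 2) a) := fun τ hτ a ha =>
    (Mmem τ hτ a ha).trans ((hpn (n + 2)).2.2.2.2 a ha.ne ha.cop)
  have hEm : ∀ τ ∈ GK k, ∀ a : Ideal (OO k), Psi τ (f * 2 ^ (n + 2)) a →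
      (τ ∈ (Kn k n).fixingSubgroup ↔ Nm1 (n + 2) a) := by
    intro τ hτ a ha
    have h1 : Psi τ (1 * 2 ^ (n + 2)) a := e5 τ _ a ha (by rw [one_mul]; exact Dvd.intro_left f rfl)
    exact (Emem τ hτ a h1).trans ⟨fun h => h.2, fun h => ⟨ha.ne, h⟩⟩
  refine ⟨EGK, ?_, ?_⟩
  · intro τ hτ
    obtain ⟨a, ha⟩ := e1 τ (hMG hτ)
    exact (hEm τ (hMG hτ) a ha).2 ((hMm τ (hMG hτ) a ha).1 hτ).2
  intro R hR c hc
  have RGK : ∀ r ∈ R, r ∈ GK k := fun r hr => EGK (hR.mem r hr)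
  refine ⟨?_, R.image c, fun a => Finset.mem_image, ?_, ?_, ?_⟩
  · intro r hr r' hr' hcc
    have h1 : Psi (r⁻¹⁻¹ * r'⁻¹) (f * 2 ^ (n + 2)) (⊤ : Ideal (OO k)) :=
      s5 r⁻¹ (inv_mem (RGK r hr)) r'⁻¹ (inv_mem (RGK r' hr')) _ _ (hc r hr) (hc r' hr')
        (by rw [hcc]; exact (hO7 k _ hM).1 _)
    rw [inv_inv] at h1
    have h2 : r * r'⁻¹ ∈ (Mn k f (n + 2)).fixingSubgroup :=
      (Mmem _ (mul_mem (RGK r hr) (inv_mem (RGK r' hr'))) _ h1).2 (hpn (n + 2)).1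
    have h4 := Mcon r'⁻¹ (inv_mem (RGK r' hr')) _ h2
    rw [inv_inv, mul_assoc, mul_assoc, inv_mul_cancel, mul_one] at h4
    exact (hR.uni r' hr' r hr h4).symm
  · -- `mem`
    intro a ha
    obtain ⟨r, hr, rfl⟩ := Finset.mem_image.1 ha
    refine ⟨(hc r hr).ne, ?_, (hEm r⁻¹ (inv_mem (RGK r hr)) _ (hc r hr)).1 (inv_mem (hR.mem r hr))⟩
    obtain ⟨h1, h2⟩ := (o2 _ _ _).1 (hc r hr).cop
    rw [pow_succ] at h2
    exact (o2 _ _ _).2 ⟨((o2 _ _ _).1 h2).2, h1⟩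
  · -- `ex`
    intro b hb0 hbf
    obtain ⟨b1, hb10, hb1p, -, hbb1⟩ := hO8 k f 2 hf0 two_pos (fun _ => True) trivial
      (fun _ _ _ _ => trivial) (fun _ _ _ _ => trivial) b hb0 hbf
    obtain ⟨hb1f, hb12⟩ := (o2 _ _ _).1 hb1p
    have hν : (NI b1).Coprime 2 := (o3 2 b1 two_pos).1 hb12
    have hν2 : (NI b1).Coprime (2 ^ (n + 2)) := Nat.Coprime.pow_right _ hν
    obtain ⟨c', e', hce⟩ : IsCoprime ((NI b1 : ℕ) : ℤ) ((2 ^ (n + 2) : ℕ) : ℤ) :=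
      Nat.isCoprime_iff_coprime.2 hν2
    push_cast at hce
    have hc'odd : Odd c' := by
      rcases Int.even_or_odd c' with h | h
      · exfalso
        obtain ⟨t, ht⟩ := h
        rw [ht, pow_succ] at hce
        have h5 : (2 : ℤ) ∣ 1 := ⟨t * (NI b1 : ℤ) + e' * 2 ^ (n + 1), by rw [← hce]; ring⟩
        exact absurd h5 (by decide)
      · exact h
    obtain ⟨v, hv1, hv2⟩ := (hAr2 k).2 f (n + 2) c' hf hc'odd
    have hNv : Odd (Nm v) := by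
      have h1 : (2 : ℤ) ∣ Nm v - c' := dvd_trans (dvd_pow_self 2 (by omega)) hv2
      obtain ⟨m, hm⟩ := hc'odd
      obtain ⟨m', hm'⟩ := h1
      exact ⟨m + m', by linarith⟩
    obtain ⟨hsv, hpv, hrv⟩ := DS_v hO2 hO6 k f (n + 2) hf0 v hv1 hNv
    have hb' : sp v * b1 ≠ (⊥ : Ideal (OO k)) := by
      have := hO1 k
      exact mul_ne_zero hsv hb10
    have hpb' : PrI (sp v * b1) (f * 2 ^ (n + 2)) :=
      (o1 _ _ _).2 ⟨hpv, (o2 _ _ _).2 ⟨hb1f, (o3 _ _ h2N).2 hν2⟩⟩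
    have hnm : (2 : ℤ) ^ (n + 2) ∣ (NI (sp v * b1) : ℤ) - 1 := by
      rw [nIm]
      push_cast
      rw [nmI]
      obtain ⟨t, ht⟩ := hv2
      refine ⟨t * (NI b1 : ℤ) - e', ?_⟩
      linear_combination (NI b1 : ℤ) * ht + hce
    have hrb : Ray f b1 (sp v * b1) := by
      have h1 := r4 _ _ _ _ hrv (r1 b1)
      rwa [Ideal.top_mul] at h1
    obtain ⟨τ, hτ, hτ'⟩ := hE7 k _ _ hM hb' hpb'
    have hτE : τ ∈ (Kn k n).fixingSubgroup := (hEm τ hτ _ hτ').2 (Or.inl hnm)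
    obtain ⟨r, hr, hrτ⟩ := hR.ex τ⁻¹ (inv_mem hτE)
    obtain ⟨e, he⟩ := e1 _ (hMG hrτ)
    have hHPe : HP f e := ((hMm _ (hMG hrτ) e he).1 hrτ).1
    have h5 := e4 _ _ _ _ he hτ'
    rw [inv_mul_cancel_right] at h5
    have h6 : Ray f (c r) (e * (sp v * b1)) :=
      r7 f _ _ (Dvd.intro _ rfl) (e2 _ _ _ (hc r hr) h5)
    obtain ⟨a', ha', hea'⟩ := (hAr3 hCg hO1 hO2 hO4 hO6 hO7 k).2 f (HP f) hf0
      ⟨hp1, hp2, hp3, hp4⟩ e hHPe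
    refine ⟨c r, Finset.mem_image_of_mem c hr, a', ha', ?_⟩
    have h7 : Ray f (sp v * b1) (a' * (e * (sp v * b1))) := by
      have h8 := r4 _ _ _ _ (r2 _ _ hea') (r1 (sp v * b1))
      rw [Ideal.top_mul] at h8
      have h9 : e * a' * (sp v * b1) = a' * (e * (sp v * b1)) := by
        rw [mul_comm e a', mul_assoc]
      rwa [h9] at h8
    exact r3 _ _ _ hbb1 (r3 _ _ _ hrb (r3 _ _ _ h7 (r4 _ _ _ _ (r1 a') (r2 _ _ h6))))
  · -- `uni`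
    intro x hx y hy hxy
    obtain ⟨r, hr, rfl⟩ := Finset.mem_image.1 hx
    obtain ⟨r', hr', rfl⟩ := Finset.mem_image.1 hy
    obtain ⟨a, ha, hay⟩ := hxy
    obtain ⟨e, he, hre⟩ := s2 r⁻¹ (inv_mem (RGK r hr)) _ (hc r hr)
    rw [inv_inv] at he
    have h1 : Psi (r'⁻¹ * r) (f * 2 ^ (n + 2)) (c r' * e) := e4 _ _ _ _ (hc r' hr') he
    have hg : r'⁻¹ * r ∈ GK k := mul_mem (inv_mem (RGK r' hr')) (RGK r hr)
    have h2 : Ray f (c r' * e) a := by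
      have h5 := r4 _ _ _ _ hay (r1 e)
      rw [mul_assoc] at h5
      have h6 := r4 _ _ _ _ (r1 a) (r7 f _ _ (Dvd.intro _ rfl) hre)
      rw [Ideal.mul_top] at h6
      exact r3 _ _ _ h5 h6
    have h4 : HP f (c r' * e) := hp3 _ _ ha (r2 _ _ h2)
    have h5 : Nm1 (n + 2) (c r' * e) :=
      (hEm _ hg _ h1).1 (mul_mem (inv_mem (hR.mem r' hr')) (hR.mem r hr))
    have h6 : r' = r := hR.uni r' hr' r hr ((hMm _ hg _ h1).2 ⟨h4, h5⟩)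
    rw [h6]

end Pool.Agent.DK.PI
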