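import Pool.Agent.Lib.DK.PI.SpecD
import Pool.Agent.Lib.DK.Base

/-!
# THEOREM DK, Part I, module FT: number fields inside the field of the Weber function
-/

set_option autoImplicit false

open scoped Pointwise

noncomputable section

namespace Pool.Agent.DK.PI

open Pool.Agent.MuZ Pool.Agent.DK
open Pool.Agent.DI (io ofC)

private theorem FT_mem (hL2 : S_L2) (k : ℕ) [SqK k]
    (hR : ∀ M : ℕ, 0 < M → wO k ∈ RCF k M ∧ ofC (jC k) ∈ RCF k M ∧
      ∀ z : ℂ, z ∉ Lam (⊤ : Ideal (OO k)) → (M : ℂ) * z ∈ Lam (⊤ : Ideal (OO k)) →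
        ofC (weC k z) ∈ RCF k M) (x : Om) (hx : x ∈ Wf k) :
    ∃ M : ℕ, 0 < M ∧ ∀ M' : ℕ, 0 < M' → M ∣ M' → x ∈ RCF k M' := by
  have two : ∀ x y : Om, (∃ M : ℕ, 0 < M ∧ ∀ M' : ℕ, 0 < M' → M ∣ M' → x ∈ RCF k M') →
      (∃ M : ℕ, 0 < M ∧ ∀ M' : ℕ, 0 < M' → M ∣ M' → y ∈ RCF k M') →
      ∃ M : ℕ, 0 < M ∧ ∀ M' : ℕ, 0 < M' → M ∣ M' → x ∈ RCF k M' ∧ y ∈ RCF k M' := by
    rintro x y ⟨M, hM, hx⟩ ⟨M', hM', hy⟩
    refine ⟨M * M', Nat.mul_pos hM hM', fun M'' h0 h => ⟨?_, ?_⟩⟩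
    · exact hx M'' h0 ((Dvd.intro _ rfl).trans h)
    · exact hy M'' h0 ((Dvd.intro_left _ rfl).trans h)
  unfold Wf at hx
  induction hx using IntermediateField.adjoin_induction with
  | mem a ha =>
    rcases ha with ha | ⟨z, hz, hz0, rfl⟩
    · refine ⟨1, one_pos, fun M' h0 _ => ?_⟩
      rcases ha with rfl | ha
      · exact (hR M' h0).1
      · rw [Set.mem_singleton_iff] at ha
        subst ha
        exact (hR M' h0).2.1
    · obtain ⟨-, -, -, -, -, -, -, h8⟩ := hL2 k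
      obtain ⟨N, hN, hNz⟩ := (h8 (⊤ : Ideal (OO k)) z top_ne_bot).1 hz
      refine ⟨N, hN, fun M' h0 hd => ?_⟩
      obtain ⟨c, rfl⟩ := hd
      refine (hR _ h0).2.2 z hz0 ?_
      have h1 : ((N * c : ℕ) : ℂ) * z = toC ((c : ℕ) : OO k) * ((N : ℂ) * z) := by
        rw [toC_nat]
        push_cast
        ring
      rw [h1]
      exact lam_mul _ hNz
  | algebraMap r => exact ⟨1, one_pos, fun M' _ _ => IntermediateField.algebraMap_mem _ r⟩
  | add x y _ _ hx hy =>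
    obtain ⟨M, hM, h⟩ := two x y hx hy
    exact ⟨M, hM, fun M' h0 hd => add_mem (h M' h0 hd).1 (h M' h0 hd).2⟩
  | inv x _ hx =>
    obtain ⟨M, hM, h1⟩ := hx
    exact ⟨M, hM, fun M' h0 hd => inv_mem (h1 M' h0 hd)⟩
  | mul x y _ _ hx hy =>
    obtain ⟨M, hM, h⟩ := two x y hx hy
    exact ⟨M, hM, fun M' h0 hd => mul_mem (h M' h0 hd).1 (h M' h0 hd).2⟩

theorem pFT : S_FT := by
  classical
  intro hL2 k _ hR F hF hFT
  obtain ⟨s, hs⟩ := hF.fg_top
  choose! Mf hMf1 hMf2 using FT_mem hL2 k hR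
  have h0 : 0 < 3 * ∏ x ∈ s, Mf (x : Om) := by
    apply Nat.mul_pos (by norm_num)
    exact Finset.prod_pos fun x _ => hMf1 x (hFT x.2)
  obtain ⟨N, f, hf, hfN⟩ := Nat.exists_eq_two_pow_mul_odd h0.ne'
  refine ⟨f, N, hf, ?_, ?_⟩
  · have h3 : 3 ∣ 2 ^ N * f := by
      rw [← hfN]
      exact Dvd.intro _ rfl
    have h4 : 3 ∣ f :=
      (Nat.Coprime.pow_right N (by norm_num : Nat.Coprime 3 2)).dvd_of_dvd_mul_left h3
    exact Nat.le_of_dvd hf.pos h4
  · rw [mul_comm f, ← hfN]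
    intro y hy
    have h1 : (⟨y, hy⟩ : F) ∈ Submodule.span ℚ (s : Set F) := by
      rw [hs]
      exact Submodule.mem_top
    have h2 : ∀ z : F, z ∈ Submodule.span ℚ (s : Set F) →
        (z : Om) ∈ RCF k (3 * ∏ x ∈ s, Mf (x : Om)) := by
      intro z hz
      induction hz using Submodule.span_induction with
      | mem x hx =>
        refine hMf2 x (hFT x.2) _ h0 ?_
        exact Dvd.dvd.mul_left (Finset.dvd_prod_of_mem (fun x : F => Mf (x : Om)) hx) 3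
      | zero => exact zero_mem _
      | add x y _ _ hx hy => exact add_mem hx hy
      | smul a x _ hx =>
        have h3 : ((a • x : F) : Om) = algebraMap ℚ Om a * (x : Om) := by
          rw [← Algebra.smul_def]
          rfl
        rw [h3]
        exact mul_mem (IntermediateField.algebraMap_mem _ a) hx
    exact h2 _ h1

end Pool.Agent.DK.PI
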