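import Pool.Agent.Lib.DK.PI.SpecD

set_option autoImplicit false

/-!
# THEOREM DK, Part I: assembly of the last descent
-/

open scoped Pointwise

noncomputable section

namespace Pool.Agent.DK.PI

open Pool.Agent.MuZ Pool.Agent.DK

theorem pFinD : S_FinD := by
  intro hJPe hA hI hFT hMN hUp k _ F hfd hF
  have hfact : Fact (Nat.Prime 2) := ⟨Nat.prime_two⟩
  obtain ⟨f, N, hf, h3f, hle⟩ := hFT k F hfd hF
  obtain ⟨h1, h2, h3, h4, h5⟩ := hMN k f N hf h3f
  refine hUp F (RCF k (f * 2 ^ N)) h1 hle ?_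
  exact (hJPe hA 2 (KQ k) (Lf k f) (RCF k (f * 2 ^ N)) h1 h3 h4 h2 h5).2 (hI k f hf h3f)

end Pool.Agent.DK.PI
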