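import Pool.Agent.Lib.DK.PI.SpecD

/-!
# THEOREM DK, Part I, module G23 (helper47): the invariants of the lattice
-/

set_option autoImplicit false

open scoped Pointwise

namespace Pool.Agent.DK.PI

open Pool.Agent.MuZ Pool.Agent.DK

/-- The algebra. -/
private theorem G23_alg (e e2 e3 s D g2 g3 : ℂ) (hs : s ≠ 0) (hD : D ≠ 0) (hD1 : 1 - 16 * D ≠ 0)
    (h2 : e2 = s * (-1 / 4) + e) (h3 : e3 = s * (-4 * D) + e)
    (q1 : 4 * e ^ 3 - g2 * e - g3 = 0) (q2 : 4 * e2 ^ 3 - g2 * e2 - g3 = 0)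
    (q3 : 4 * e3 ^ 3 - g2 * e3 - g3 = 0) :
    12 * e = s * (1 + 16 * D) ∧ 12 * g2 = s ^ 2 * ((16 * D) ^ 2 - 16 * D + 1) ∧
    432 * g3 = s ^ 3 * ((1 + 16 * D) * (16 * D - 2) * (1 - 32 * D)) ∧
    g2 ^ 3 - 27 * g3 ^ 2 = s ^ 6 * (D ^ 2 * (1 - 16 * D) ^ 2) := by
  have r1 : g2 = 4 * (e ^ 2 + e * e2 + e2 ^ 2) := by
    have h : s * (4 * (e ^ 2 + e * e2 + e2 ^ 2) - g2) = 0 := by
      have h' : (e - e2) * (4 * (e ^ 2 + e * e2 + e2 ^ 2) - g2) = 0 := by
        linear_combination q1 - q2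
      rw [h2] at h' ⊢
      linear_combination 4 * h'
    rcases mul_eq_zero.1 h with h' | h'
    · exact absurd h' hs
    · linear_combination -h'
  have r2 : g2 = 4 * (e ^ 2 + e * e3 + e3 ^ 2) := by
    have h : (s * D) * (4 * (e ^ 2 + e * e3 + e3 ^ 2) - g2) = 0 := by
      have h' : (e - e3) * (4 * (e ^ 2 + e * e3 + e3 ^ 2) - g2) = 0 := by
        linear_combination q1 - q3
      rw [h3] at h' ⊢
      linear_combination (1 / 4) * h'
    rcases mul_eq_zero.1 h with h' | h'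
    · exact absurd h' (mul_ne_zero hs hD)
    · linear_combination -h'
  have r3 : 12 * e = s * (1 + 16 * D) := by
    have h : (s * (1 - 16 * D)) * (e + e2 + e3) = 0 := by
      have h' : (e2 - e3) * (e + e2 + e3) = 0 := by
        linear_combination (r2 - r1) / 4
      have h'' : s * (1 - 16 * D) = -4 * (e2 - e3) := by
        rw [h2, h3]
        ring
      rw [h'']
      linear_combination -4 * h'
    rcases mul_eq_zero.1 h with h' | h'
    · exact absurd h' (mul_ne_zero hs hD1)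
    · rw [h2, h3] at h'
      linear_combination 4 * h'
  have re : e = s * (1 + 16 * D) / 12 := by linear_combination r3 / 12
  have re2 : e2 = s * (16 * D - 2) / 12 := by rw [h2, re]; ring
  have rg2 : g2 = s ^ 2 * ((16 * D) ^ 2 - 16 * D + 1) / 12 := by
    rw [r1, re2, re]
    ring
  have rg3 : g3 = s ^ 3 * ((1 + 16 * D) * (16 * D - 2) * (1 - 32 * D)) / 432 := by
    have h : g3 = 4 * e ^ 3 - g2 * e := by linear_combination -q1
    rw [h, rg2, re]
    ring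
  refine ⟨r3, ?_, ?_, ?_⟩
  · rw [rg2]
    ring
  · rw [rg3]
    ring
  · rw [rg2, rg3]
    ring

theorem pG23 : S_G23 := by
  intro hL1 hL6 hB1 k _ b hb
  have hlat : ∀ z : ℂ, z ∈ (LP b).lattice ↔ z ∈ Lam b := by
    intro z
    rw [← hL1 k b hb]
    rfl
  obtain ⟨⟨-, hT, -⟩, ⟨-, hS, -⟩, ⟨h2T, h2S, hST, -, -⟩, -⟩ := hL6 k b hb
  obtain ⟨-, -, hs, hD, hD1, -, hwd, hwp, -, hXS, hXT, hXST, -⟩ := hB1 k b hb
  -- the differential equation at the points of order two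
  have key : ∀ z : ℂ, z ∉ Lam b → 2 * z ∈ Lam b →
      4 * wpC b z ^ 3 - (LP b).g₂ * wpC b z - (LP b).g₃ = 0 := by
    intro z hz h2z
    have h1 : wdC b z = 0 := (hwd z hz).2 h2z
    have h2 := (LP b).derivWeierstrassP_sq z (fun h => hz ((hlat z).1 h))
    change wdC b z ^ 2 = 4 * wpC b z ^ 3 - (LP b).g₂ * wpC b z - (LP b).g₃ at h2
    rw [← h2, h1]
    ring
  have h2ST : 2 * (ptS b + ptT b) ∈ Lam b := by
    rw [mul_add]
    intro v hv
    obtain ⟨u, hu⟩ := h2S v hv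
    obtain ⟨u', hu'⟩ := h2T v hv
    refine ⟨u + u', ?_⟩
    rw [mul_add, hu, hu', toC_apply, toC_apply, toC_apply, QuadraticAlgebra.re_add,
      QuadraticAlgebra.im_add]
    push_cast
    ring
  exact G23_alg (wpC b (ptS b)) (wpC b (ptT b)) (wpC b (ptS b + ptT b)) (s2 b) (DC b)
    (LP b).g₂ (LP b).g₃ hs hD hD1 (by rw [hwp (ptT b), hXT]) (by rw [hwp (ptS b + ptT b), hXST])
    (key _ hS h2S) (key _ hT h2T) (key _ hST h2ST)

end Pool.Agent.DK.PI
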