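import Pool.Agent.Lib.DK.PI.SpecC

/-!
# THEOREM DK, Part I, module GalI: Galois theory for groups of ray classes
-/

set_option autoImplicit false

open scoped Pointwise

namespace Pool.Agent.DK.PI

open Pool.Agent.MuZ Pool.Agent.DK

theorem pGalI : S_GalI := by
  intro hO7 hE1 hE8 hPs k _ N H hN hH
  obtain ⟨r1, r2, r3, r4, -, -, -, -, -, -⟩ := hO7 k N hN
  obtain ⟨e1, e2, e3, e4, -⟩ := hE1 k N hN
  obtain ⟨s1, s2, s3, s4, s5⟩ := hPs hO7 hE1 k N hN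
  obtain ⟨hf, hK, hG⟩ := hE8 k N H hN hH.top hH.cop hH.ray hH.mul
  have hmem : ∀ τ ∈ GK k, ∀ a : Ideal (OO k), Psi τ N a →
      (τ ∈ (FixI N H).fixingSubgroup ↔ H a) := by
    intro τ hτ a ha
    rw [← hG τ hτ a ha, IntermediateField.mem_fixingSubgroup_iff]
  have hle : (FixI N H).fixingSubgroup ≤ GK k := IntermediateField.fixingSubgroup_le hK
  have hfix : ∀ x : Om, (∀ τ ∈ GK k, (∃ a : Ideal (OO k), Psi τ N a ∧ H a) → τ x = x) →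
      x ∈ FixI N H := by
    intro x hx τ hτ a ha hHa
    exact hx τ hτ ⟨a, ha, hHa⟩
  have h7 : ∀ σ ∈ GK k, ∀ τ ∈ GK k, σ * τ * σ⁻¹ * τ⁻¹ ∈ (FixI N H).fixingSubgroup := by
    intro σ hσ τ hτ
    have hm : σ * τ * σ⁻¹ * τ⁻¹ ∈ GK k :=
      mul_mem (mul_mem (mul_mem hσ hτ) (inv_mem hσ)) (inv_mem hτ)
    exact (hmem _ hm _ (s4 σ hσ τ hτ)).2 hH.top
  have h8 : ∀ σ ∈ GK k, ∀ τ ∈ (FixI N H).fixingSubgroup,
      σ * τ * σ⁻¹ ∈ (FixI N H).fixingSubgroup := by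
    intro σ hσ τ hτ
    have h1 := mul_mem (h7 σ hσ τ (hle hτ)) hτ
    rwa [inv_mul_cancel_right] at h1
  refine ⟨hf, hK, hle, hmem, hfix, ?_, h7, h8⟩
  intro σ hσ x hx
  refine hfix (σ x) fun τ hτ hex => ?_
  obtain ⟨a, ha, hHa⟩ := hex
  have hτf : τ ∈ (FixI N H).fixingSubgroup := (hmem τ hτ a ha).2 hHa
  have h9 := h8 σ⁻¹ (inv_mem hσ) τ hτf
  rw [inv_inv, IntermediateField.mem_fixingSubgroup_iff] at h9
  have h10 := h9 x hx
  have h11 : σ ((σ⁻¹ * τ * σ) x) = τ (σ x) := by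
    rw [← AlgEquiv.mul_apply, ← mul_assoc, ← mul_assoc, mul_inv_cancel, one_mul,
      AlgEquiv.mul_apply]
  rw [← h11, h10]

end Pool.Agent.DK.PI
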