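import Pool.Agent.Lib.DK.PI.SpecC
import Pool.Agent.Lib.MuZ.AsmA
import Pool.Agent.Lib.MuZ.Inst

/-!
# THEOREM DK, Part I, module HypC (helper55): the hypothesis of the descent for `Lf k f`
-/

set_option autoImplicit false

open scoped Pointwise

namespace Pool.Agent.DK.PI

open Pool.Agent.MuZ Pool.Agent.DK
open Pool.Agent.DI (io ofC io_inj exists_io io_ofC ofC_io VP MP UP TP ex sqr sqr_sq kap)
open Pool.Agent.DI.PI (Reps HypI Meas tr)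

private theorem HypC_rel (F : IntermediateField ℚ Om) [FiniteDimensional ℚ F]
    (W : Subgroup Gal(Om/ℚ)) : F.fixingSubgroup.relIndex W ≠ 0 := by
  have hidx : F.fixingSubgroup.index ≠ 0 := by
    rw [← IntermediateField.finrank_eq_fixingSubgroup_index]
    exact Module.finrank_pos.ne'
  intro h
  exact hidx (by
    have h2 := Subgroup.index_eq_zero_of_relIndex_eq_zero h
    exact h2)

/-- An auxiliary ideal. -/
private theorem HypC_m (hO2 : S_O2) (hO6 : S_O6) (k : ℕ) [SqK k] (f : ℕ) (hf : 0 < f) :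
    ∃ m : Ideal (OO k), m ≠ ⊥ ∧ m ≠ ⊤ ∧ PrI m 2 ∧ PrI m f := by
  obtain ⟨q, hq1, hq⟩ := Nat.exists_infinite_primes (2 * f + 1)
  obtain ⟨-, -, -, hNI, -, hNI0, -, -⟩ := hO2 k
  have hNm : Nm ((q : ℕ) : OO k) = (q : ℤ) ^ 2 := by
    unfold Nm
    rw [QuadraticAlgebra.re_natCast, QuadraticAlgebra.im_natCast]
    ring
  have hNIq : (NI (sp ((q : ℕ) : OO k)) : ℤ) = (q : ℤ) ^ 2 := by rw [hNI, hNm]
  have hcop : ∀ N : ℕ, 0 < N → N ≤ 2 * f → PrI (sp ((q : ℕ) : OO k)) N := by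
    intro N hN hNf
    refine ((hO6 k).2.2.2.1 N _ hN).2 ?_
    unfold Cop
    rw [hNm]
    have h1 : q.Coprime N := by
      refine (Nat.Prime.coprime_iff_not_dvd hq).2 fun h => ?_
      have := Nat.le_of_dvd hN h
      omega
    exact IsCoprime.pow_left (Nat.isCoprime_iff_coprime.2 h1)
  refine ⟨sp ((q : ℕ) : OO k), ?_, ?_, hcop 2 two_pos (by omega), hcop f hf (by omega)⟩
  · intro h
    have h1 := (hNI0 _).2 h
    rw [h1] at hNIq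
    have h2 : (q : ℤ) ≠ 0 := by exact_mod_cast hq.ne_zero
    exact pow_ne_zero 2 h2 hNIq.symm
  · intro h
    have h1 : (NI (sp (1 : OO k)) : ℤ) = 1 := by
      rw [hNI]
      unfold Nm
      rw [QuadraticAlgebra.re_one, QuadraticAlgebra.im_one]
      ring
    have h2 : sp (1 : OO k) = ⊤ := Ideal.span_singleton_one
    rw [h, ← h2, h1] at hNIq
    have h3 : (2 : ℤ) ≤ (q : ℤ) := by exact_mod_cast hq.two_le
    nlinarith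

theorem pHypC : S_HypC := by
  classical
  intro hExP hChi hLM hBInv hBNrm hRpT hAP haP hAThm hDS hANv hgEx hRpS hKap hTei hCg hAr2 hAr3
    hNiL hPs hGalI hKF1 hO1 hO2 hO4 hO6 hO7 hO8 hO9 hE1 hE6 hE7 hE8 hE9 hLay hGR hGM hG3 hG hH k _
    hly hlu f hf h3
  have hfpos : 0 < f := hf.pos
  obtain ⟨⟨P, hAb⟩, hExP2⟩ := hExP k
  obtain ⟨h2P, hNpr, hMP2⟩ := hExP2 P hAb
  have hnice : NiceI f (H2 (k := k) f) := ((hAr3 hCg hO1 hO2 hO4 hO6 hO7 k).1 f hf).2.2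
  have hGal := hGalI hO7 hE1 hE8 hPs k
  have hfdL : FiniteDimensional ℚ (Lf k f) := (hGal f (H2 f) hfpos hnice).1
  have hlayL : ∀ n : ℕ, Layer 2 (Lf k f) n (Ln k f (n + 2)) := fun n => hly f (H2 f) hf hnice n
  have hlayL' : ∀ (n : ℕ) (F : IntermediateField ℚ Om), Layer 2 (Lf k f) n F →
      F = Ln k f (n + 2) := fun n F hF => hlu (Lf k f) hfdL n F _ hF (hlayL n)
  obtain ⟨hnice1, hKQ⟩ := hKF1 hO1 hO7 hE1 hE8 hPs hGalI k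
  have hfdK : FiniteDimensional ℚ (KQ k) := by
    have h1 := (hGal 1 (fun a : Ideal (OO k) => a ≠ ⊥) one_pos hnice1).1
    rwa [hKQ] at h1
  have hlayKn : ∀ n : ℕ, Layer 2 (KQ k) n (Kn k n) := by
    intro n
    have h1 := hly 1 (fun a : Ideal (OO k) => a ≠ ⊥) odd_one hnice1 n
    rw [hKQ] at h1
    exact h1
  have hlayK : ∀ (n : ℕ) (E : IntermediateField ℚ Om), Layer 2 (KQ k) n E → E = Kn k n :=
    fun n E hE => hlu (KQ k) hfdK n E _ hE (hlayKn n)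
  have hniceK : ∀ n : ℕ, NiceI (1 * 2 ^ (n + 2)) (fun a : Ideal (OO k) => a ≠ ⊥ ∧ Nm1 (n + 2) a) :=
    fun n => hNiL hO1 hO2 hO6 hO7 hO9 k 1 _ one_pos hnice1 n
  obtain ⟨hLG, hLMn⟩ := hLM hCg hAr3 hNiL hPs hGalI hO1 hO2 hO4 hO6 hO7 hO9 hE1 hE8 hE9 hGM k f hf
    h3
  have hLnLf : ∀ n : ℕ, (Ln k f (n + 2)).fixingSubgroup ≤ (Lf k f).fixingSubgroup :=
    fun n => (hLMn n).1
  have hMnLn : ∀ n : ℕ, (Mn k f (n + 2)).fixingSubgroup ≤ (Ln k f (n + 2)).fixingSubgroup :=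
    fun n => (hLMn n).2.1
  have hLnG : ∀ n : ℕ, (Ln k f (n + 2)).fixingSubgroup ≤ GK k := fun n => (hLnLf n).trans hLG
  have hMnG : ∀ n : ℕ, (Mn k f (n + 2)).fixingSubgroup ≤ GK k := fun n => (hMnLn n).trans (hLnG n)
  refine ⟨P, hAb.1.1, by exact_mod_cast h2P, ?_⟩
  intro χb hmul hone hnt
  obtain ⟨χ, hχ, hχb, m0, hm0, hχm⟩ := hChi hTei hPs hGalI hAr3 hCg hO1 hO2 hO4 hO6 hO7 hE1 hE7 hE8
    k f hf P hAb.1.1 h2P χb hmul hone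
  obtain ⟨m, hmb, hmt, hm2, hmf⟩ := HypC_m hO2 hO6 k f hfpos
  obtain ⟨N0, hN03, hGN⟩ := hG k f m (fun a => (χ a : Om)) P hf h3 hmb hmt hm2 hmf hχ hAb
  obtain ⟨n0, rfl⟩ : ∃ n0, N0 = n0 + 2 := ⟨N0 - 2, by omega⟩
  choose T hT using fun n : ℕ => (hGR k f (n + 2) hf h3).1
  obtain ⟨hKnG, hMnKn, hDSR⟩ := hDS hCg hAr2 hAr3 hNiL hPs hGalI hKF1 hLM hO1 hO2 hO4 hO6 hO7 hO8
    hO9 hE1 hE7 hE8 hE9 hGM k f n0 hf h3
  have hfdM : FiniteDimensional ℚ (Mn k f (n0 + 2)) :=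
    ((hGM k f hf h3).2.2.2.2.1 (n0 + 2)).1
  obtain ⟨R', hR'⟩ := (hRpS Gal(Om/ℚ) (Kn k n0).fixingSubgroup (Mn k f (n0 + 2)).fixingSubgroup
    (Mn k f (n0 + 2)).fixingSubgroup hMnKn le_rfl).2.2 (HypC_rel _ _)
  have hMpos : 0 < f * 2 ^ (n0 + 2) := by positivity
  have hexc : ∀ r : Gal(Om/ℚ), ∃ a : Ideal (OO k), r ∈ R' → Psi r⁻¹ (f * 2 ^ (n0 + 2)) a := by
    intro r
    by_cases hr : r ∈ R'
    · obtain ⟨a, ha⟩ := (hE1 k _ hMpos).1 r⁻¹ ((GK k).inv_mem (hKnG (hR'.mem r hr)))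
      exact ⟨a, fun _ => ha⟩
    · exact ⟨⊤, fun h => absurd h hr⟩
  choose c hc using hexc
  obtain ⟨hinj, D, hDm, hDD⟩ := hDSR R' hR' c hc
  obtain ⟨d, hdec, hfix, hfi, hnot⟩ := hGN (n0 + 2) le_rfl (T n0) (hT n0) D hDD
  have hGD : GDat k f m P d T := ⟨hf, h3, hmb, hm2, hmf, hAb, hdec, hfix, hfi, hT⟩
  have hb : ∀ n : ℕ, ∀ σ ∈ GK k, ∀ τ ∈ (Mn k f (n + 2)).fixingSubgroup,
      bb f m d T n (σ * τ) = bb f m d T n σ :=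
    fun n σ hσ => (hBInv hG3 hE1 hO6 k f m P d T hGD n σ hσ).1
  have hn := hBNrm hBInv hG3 hKap hGM hPs hAr2 hO1 hO2 hO6 hO7 hO9 hE1 hE7 k f m P d T hGD hMnG
  have hA := hAP hRpS hRpT k f m d T hb hn (fun n => ⟨hLnG n, (hLMn n).2.1, (hLMn n).2.2.1,
    (hLMn n).2.2.2.1, (hLMn n).2.2.2.2.1, (hLMn n).2.2.2.2.2.1⟩)
  have hstab : ∀ n : ℕ, ∀ σ ∈ GK k, ∀ τ ∈ (Ln k f (n + 2)).fixingSubgroup,
      σ * τ * σ⁻¹ ∈ (Ln k f (n + 2)).fixingSubgroup := fun n => (hLMn n).2.2.2.2.2.2.1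
  have hstabM : ∀ n : ℕ, ∀ σ ∈ GK k, ∀ τ ∈ (Mn k f (n + 2)).fixingSubgroup,
      σ * τ * σ⁻¹ ∈ (Mn k f (n + 2)).fixingSubgroup := fun n => (hLMn n).2.2.2.2.2.2.2.1
  have hcomM : ∀ n : ℕ, ∀ σ ∈ GK k, ∀ τ ∈ GK k,
      σ * τ * σ⁻¹ * τ⁻¹ ∈ (Mn k f (n + 2)).fixingSubgroup := fun n => (hLMn n).2.2.2.2.2.2.2.2.1
  have hstabK : ∀ σ ∈ GK k, ∀ τ ∈ (Kn k n0).fixingSubgroup,
      σ * τ * σ⁻¹ ∈ (Kn k n0).fixingSubgroup :=
    (hGal (1 * 2 ^ (n0 + 2)) _ (by positivity) (hniceK n0)).2.2.2.2.2.2.2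
  obtain ⟨g, hgK, hg1⟩ := hgEx hLay k n0 hfdK (hlayKn n0) hstabK P χb hmul
    (hone 1 (Subgroup.one_mem _)) ⟨m0, hm0, hχm⟩ hnt
  have hgG : g ∈ GK k := hKnG hgK
  have ha := haP hRpT k f m d T (fun n σ hσ => ⟨(hA n σ hσ).2.1, (hA n σ hσ).2.2⟩)
    (fun n => ⟨hLnG n, (hLMn n).2.2.2.1, hstab n⟩) g hgG
  have hLnKn : (Ln k f (n0 + 2)).fixingSubgroup ≤ (Kn k n0).fixingSubgroup := by
    apply IntermediateField.fixingSubgroup_le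
    intro x hx τ hτ a hPsi hHa
    have hd : 1 * 2 ^ (n0 + 2) ∣ f * 2 ^ (n0 + 2) := mul_dvd_mul_right (one_dvd f) _
    exact hx τ hτ a ((hE1 k _ hMpos).2.2.2.2 τ _ a hPsi hd) ⟨hPsi.ne, hHa.2⟩
  refine ⟨n0, aG f m d T g, ⟨?_, ?_, ?_, ?_⟩⟩
  · intro n _ F hF σ hσ τ hτ
    rw [hlayL' n F hF] at hτ
    exact (ha n σ hσ).1 τ hτ
  · intro n _ F F' hF hF' σ hσ R hR
    rw [hlayL' n F hF, hlayL' (n + 1) F' hF'] at hR
    exact (ha n σ hσ).2 R hR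
  · intro n _ F hF φ hφ τ hτ R hR
    rw [hlayL' n F hF] at hφ hτ hR
    exact hAThm hH hRpS hRpT k f m P d T hGD n (hLnG n) (hMnLn n) (hLMn n).2.2.1 (hstab n)
      (hstabM n) (hcomM n) (fun σ hσ => ⟨(hA n σ hσ).1, (hA n σ hσ).2.1⟩) g hgG φ hφ τ hτ R hR
  · intro E F hE hF R hR
    rw [hlayK n0 E hE, hlayL' n0 F hF] at hR
    exact hANv hRpS hRpT hBInv hG3 hE1 hO6 k f m P d T hGD h2P n0 hKnG hLnKn (hLnLf n0) (hMnLn n0)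
      (hLMn n0).2.2.1 (hstab n0) (fun σ hσ => ⟨(hA n0 σ hσ).1, (hA n0 σ hσ).2.1⟩) χb χ hmul hone
      hχb R' c D hR' (fun r hr => hc r hr) hinj hDm hnot g hgK hg1 R hR

end Pool.Agent.DK.PI
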