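import Pool.Agent.Lib.DK.PI.SpecC

/-!
# THEOREM DK, Part I, module KF1: the field `K` as `FixI`
-/

set_option autoImplicit false

open scoped Pointwise

namespace Pool.Agent.DK.PI

open Pool.Agent.MuZ Pool.Agent.DK

theorem pKF1 : S_KF1 := by
  intro hO1 hO7 hE1 hE8 hPs hGalI k _
  have := hO1 k
  have hn : NiceI 1 (fun a : Ideal (OO k) => a ≠ ⊥) := by
    refine ⟨top_ne_bot, fun a ha => ⟨ha, ?_⟩, fun a a' ha hr => ?_, fun a a' ha ha' => ?_⟩
    · unfold PrI
      rw [Nat.cast_one, Ideal.span_singleton_one, sup_top_eq]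
    · exact (((hO7 k 1 Nat.one_pos).2.2.2.2.2.1 a a' hr).1).1 ha
    · exact mul_ne_zero ha ha'
  refine ⟨hn, le_antisymm ?_ (hGalI hO7 hE1 hE8 hPs k 1 _ Nat.one_pos hn).2.1⟩
  intro x hx
  have h1 : x ∈ IntermediateField.fixedField (KQ k).fixingSubgroup := by
    rw [IntermediateField.mem_fixedField_iff]
    intro τ hτ
    obtain ⟨a, ha⟩ := (hE1 k 1 Nat.one_pos).1 τ hτ
    exact hx τ hτ a ha ha.ne
  rwa [InfiniteGalois.fixedField_fixingSubgroup] at h1

end Pool.Agent.DK.PI
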