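import Pool.Agent.Lib.DK.PI.SpecC

/-!
# THEOREM DK, part I, module LM (helper61): the fields `L_n` and `L'_n`
-/

set_option autoImplicit false

open scoped Pointwise nonZeroDivisors

noncomputable section

namespace Pool.Agent.DK.PI

open Pool.Agent.MuZ Pool.Agent.DK NumberField IsDedekindDomain
open Pool.Agent.DI (io ofC io_inj exists_io io_ofC ofC_io VP MP UP TP ex sqr sqr_sq kap)
open Pool.Agent.DI.PI (Reps HypI Meas tr)

private theorem LM_rel (F : IntermediateField ℚ Om) (hF : FiniteDimensional ℚ F)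
    (W : Subgroup Gal(Om/ℚ)) : F.fixingSubgroup.relIndex W ≠ 0 := by
  have h1 : IsOpen (F.fixingSubgroup : Set Gal(Om/ℚ)) := IntermediateField.fixingSubgroup_isOpen F
  have h2 : Finite (Gal(Om/ℚ) ⧸ F.fixingSubgroup) := Subgroup.quotient_finite_of_isOpen _ h1
  have h3 : F.fixingSubgroup.FiniteIndex := Subgroup.finiteIndex_of_finite_quotient
  have h4 : (F.fixingSubgroup.subgroupOf W).FiniteIndex := inferInstance
  exact h4.index_ne_zero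

theorem pLM : S_LM := by
  intro hCg hAr3 hNiL hPs hGalI hO1 hO2 hO4 hO6 hO7 hO9 hE1 hE8 hE9 hGM k _ f hf h3
  have hf0 : 0 < f := hf.pos
  have hN : NiceI f (H2 (k := k) f) := ((hAr3 hCg hO1 hO2 hO4 hO6 hO7 k).1 f hf).2.2
  obtain ⟨-, g2, -, -, g5, -⟩ := hGM k f hf h3
  obtain ⟨-, -, -, -, -, -, -, e8⟩ := hE9 k f hf h3
  have hpos : ∀ N : ℕ, 0 < f * 2 ^ N := fun N => Nat.mul_pos hf0 (pow_pos two_pos N)
  have hNL : ∀ n : ℕ, NiceI (f * 2 ^ (n + 2)) (H2N (k := k) f (n + 2)) := fun n =>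
    hNiL hO1 hO2 hO6 hO7 hO9 k f (H2 f) hf0 hN n
  have hNM : ∀ N : ℕ, NiceI (f * 2 ^ N) (HPN (k := k) f N) := fun N =>
    ⟨(g2 N).1, (g2 N).2.1, (g2 N).2.2.1, (g2 N).2.2.2.1⟩
  have hG := hGalI hO7 hE1 hE8 hPs k
  have hLL : ∀ n : ℕ, Lf k f ≤ Ln k f n := by
    intro n x hx τ hτ a h1 h2
    exact hx τ hτ a ((hE1 k _ (hpos n)).2.2.2.2 τ f a h1 (dvd_mul_right f _)) h2.1
  have hLn : ∀ n : ℕ, Ln k f n ≤ Ln k f (n + 1) := by
    intro n x hx τ hτ a h1 h2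
    have h4 : (2 : ℤ) ^ n ∣ 2 ^ (n + 1) := pow_dvd_pow 2 (Nat.le_succ n)
    refine hx τ hτ a ((hE1 k _ (hpos (n + 1))).2.2.2.2 τ _ a h1
      (Nat.mul_dvd_mul_left f (pow_dvd_pow 2 (Nat.le_succ n)))) ⟨h2.1, ?_⟩
    exact h2.2.imp (fun h => h4.trans h) (fun h => h4.trans h)
  refine ⟨(hG f (H2 f) hf0 hN).2.2.1, fun n => ?_⟩
  obtain ⟨-, -, -, -, -, -, -, l8⟩ := hG _ _ (hpos (n + 2)) (hNL n)
  obtain ⟨-, -, -, m4, -, -, m7, m8⟩ := hG _ _ (hpos (n + 2)) (hNM (n + 2))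
  exact ⟨IntermediateField.fixingSubgroup_le (hLL (n + 2)),
    IntermediateField.fixingSubgroup_le (e8 (n + 2)), LM_rel _ (g5 (n + 2)).1 _,
    IntermediateField.fixingSubgroup_le (hLn (n + 2)),
    IntermediateField.fixingSubgroup_le (g5 (n + 2)).2.2, LM_rel _ (g5 (n + 1 + 2)).1 _,
    l8, m8, m7, m4⟩

end Pool.Agent.DK.PI
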