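import Pool.Agent.Lib.DK.PI.SpecC
import Pool.Agent.Lib.DI.B.A12

/-!
# Theorem DK, Part I: the norm of `a` and `Qcyc 2`
-/

set_option autoImplicit false

open scoped Pointwise

noncomputable section

namespace Pool.Agent.DK.PI

open Pool.Agent.MuZ Pool.Agent.DK


private theorem NoC_odd (N : ℕ) (t : ℤ) (h : (2 : ℤ) ^ N ∣ t * (t + 1)) :
    (2 : ℤ) ^ N ∣ t ∨ (2 : ℤ) ^ N ∣ t + 1 := by
  rcases Int.even_or_odd t with ht | ht
  · left
    have h1 : IsCoprime ((2 : ℤ) ^ N) (t + 1) := by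
      apply IsCoprime.pow_left
      obtain ⟨k, hk⟩ := ht
      exact ⟨-k, 1, by rw [hk]; ring⟩
    exact h1.dvd_of_dvd_mul_right h
  · right
    have h1 : IsCoprime ((2 : ℤ) ^ N) t := by
      apply IsCoprime.pow_left
      obtain ⟨k, hk⟩ := ht
      exact ⟨-k, 1, by rw [hk]; ring⟩
    exact h1.dvd_of_dvd_mul_left h

private theorem NoC_sq (N : ℕ) (c : ℤ) (h : (2 : ℤ) ^ (N + 1) ∣ c ^ 2 - 1) :
    (2 : ℤ) ^ N ∣ c - 1 ∨ (2 : ℤ) ^ N ∣ c + 1 := by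
  rcases Nat.eq_zero_or_pos N with rfl | hN
  · left
    rw [pow_zero]
    exact one_dvd _
  · obtain ⟨n, rfl⟩ : ∃ n, N = n + 1 := ⟨N - 1, by omega⟩
    have h2 : (2 : ℤ) ∣ c ^ 2 - 1 := (dvd_pow_self 2 (by omega)).trans h
    have hc : ∃ t, c = 2 * t + 1 := by
      rcases Int.even_or_odd c with ⟨k, hk⟩ | hc
      · exfalso
        obtain ⟨l, hl⟩ := h2
        rw [hk] at hl
        have : 2 * (2 * k ^ 2 - l) = 1 := by linear_combination hl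
        omega
      · exact hc
    obtain ⟨t, rfl⟩ := hc
    obtain ⟨l, hl⟩ := h
    have h3 : (2 : ℤ) ^ n ∣ t * (t + 1) := by
      refine ⟨l, ?_⟩
      have h4 : (4 : ℤ) * (t * (t + 1)) = 4 * (2 ^ n * l) := by
        have h5 : (2 * t + 1) ^ 2 - 1 = 4 * (t * (t + 1)) := by ring
        rw [← h5, hl]
        ring
      exact mul_left_cancel₀ (by norm_num) h4
    rcases NoC_odd n t h3 with ⟨s, hs⟩ | ⟨s, hs⟩
    · left
      refine ⟨s, ?_⟩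
      rw [pow_succ]
      linear_combination 2 * hs
    · right
      refine ⟨s, ?_⟩
      rw [pow_succ]
      linear_combination 2 * hs

theorem pNoC : S_NoC := by
  intro hT hO6 hO9 hE1 hE6 k _ τ hτ hτc M N a hM hPsi
  have hMN : 0 < M * 2 ^ N := by positivity
  have hMN1 : 0 < M * 2 ^ (N + 1) := by positivity
  obtain ⟨a', ha'⟩ := (hE1 k (M * 2 ^ (N + 1)) hMN1).1 τ hτ
  have h1 : Psi τ (M * 2 ^ N) a' := by
    refine (hE1 k (M * 2 ^ (N + 1)) hMN1).2.2.2.2 τ (M * 2 ^ N) a' ha' ?_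
    exact Nat.mul_dvd_mul_left M (pow_dvd_pow 2 (Nat.le_succ N))
  have h2 : Ray (M * 2 ^ N) a a' := (hE1 k _ hMN).2.1 τ a a' hPsi h1
  have h2' := hO9 k _ hMN a a' hPsi.cop h1.cop h2
  have h4 : (2 : ℤ) ^ N ∣ (NI a : ℤ) - NI a' := by
    refine Dvd.dvd.trans ⟨(M : ℤ), ?_⟩ h2'
    push_cast
    ring
  have hζ := (DI.tA2 (2 ^ (N + 1)) (by positivity)).2
  obtain ⟨ζ, hζe⟩ : ∃ ζ, ζ = DI.zet (2 ^ (N + 1)) := ⟨_, rfl⟩
  rw [← hζe] at hζ
  have h5 : τ ζ = ζ ^ (NI a') := by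
    refine hE6 k τ (M * 2 ^ (N + 1)) a' hτ hMN1 ha' ζ ?_
    rw [mul_comm, pow_mul, hζ.pow_eq_one, one_pow]
  have hT2 := hT 2 Nat.prime_two τ hτc ζ ⟨N + 1, hζ.pow_eq_one⟩
  have h6 : (τ ^ (2 * (2 - 1))) ζ = τ (τ ζ) := by
    change (τ ^ 2) ζ = τ (τ ζ)
    rw [pow_two]
    rfl
  rw [h6, h5, map_pow, h5, ← pow_mul] at hT2
  have hζ0 : ζ ≠ 0 := hζ.ne_zero (by positivity)
  have h7 : ζ ^ ((NI a' : ℤ) ^ 2 - 1) = 1 := by
    have h8 : ((NI a' * NI a' : ℕ) : ℤ) = (NI a' : ℤ) ^ 2 := by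
      push_cast
      ring
    rw [← h8, zpow_sub₀ hζ0, zpow_natCast, hT2, zpow_one, div_self hζ0]
  have h9 := (hζ.zpow_eq_one_iff_dvd _).1 h7
  rw [Nat.cast_pow] at h9
  have h10 : (2 : ℤ) ^ (N + 1) ∣ (NI a' : ℤ) ^ 2 - 1 := h9
  rcases NoC_sq N _ h10 with h11 | h11
  · left
    have h12 := dvd_add h4 h11
    have h13 : (NI a : ℤ) - NI a' + (NI a' - 1) = NI a - 1 := by ring
    rw [h13] at h12
    exact h12
  · right
    have h12 := dvd_add h4 h11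
    have h13 : (NI a : ℤ) - NI a' + (NI a' + 1) = NI a + 1 := by ring
    rw [h13] at h12
    exact h12

end Pool.Agent.DK.PI
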