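import Pool.Agent.Lib.DK.PI.SpecC

/-!
# THEOREM DK, Part I, module Ps: elementary facts about `Psi`
-/

set_option autoImplicit false

open scoped Pointwise

namespace Pool.Agent.DK.PI

open Pool.Agent.MuZ Pool.Agent.DK

private theorem Ps_one (k N : ℕ) [Nontrivial (OO k)] : Psi 1 N (⊤ : Ideal (OO k)) := by
  refine ⟨top_ne_bot, ?_, fun b _ => ?_, fun b _ z _ => ?_⟩
  · exact top_sup_eq _
  · rw [Ideal.top_mul, AlgEquiv.one_apply]
  · rw [Ideal.top_mul, AlgEquiv.one_apply]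

theorem pPs : S_Ps := by
  intro hO7 hE1 k _ N hN
  obtain ⟨r1, r2, r3, r4, -, -, -, -, -, -⟩ := hO7 k N hN
  obtain ⟨e1, e2, e3, e4, -⟩ := hE1 k N hN
  have h1 : Psi 1 N (⊤ : Ideal (OO k)) := Ps_one k N
  have h5 : ∀ τ ∈ GK k, ∀ a : Ideal (OO k), Psi τ N a → ∃ a', Psi τ⁻¹ N a' ∧ Ray N (a * a') ⊤ := by
    intro τ hτ a h
    obtain ⟨a', ha'⟩ := e1 τ⁻¹ (inv_mem hτ)
    refine ⟨a', ha', ?_⟩
    have h6 := e4 τ τ⁻¹ a a' h ha'
    rw [mul_inv_cancel] at h6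
    exact e2 1 _ _ h6 h1
  refine ⟨h1, h5, ?_, ?_, ?_⟩
  · intro τ a n h
    induction n with
    | zero =>
      rw [pow_zero, pow_zero, Ideal.one_eq_top]
      exact h1
    | succ n ih =>
      rw [pow_succ, pow_succ]
      exact e4 _ _ _ _ ih h
  · intro σ hσ τ hτ
    obtain ⟨a, ha⟩ := e1 σ hσ
    obtain ⟨b, hb⟩ := e1 τ hτ
    obtain ⟨a', ha', hra⟩ := h5 σ hσ a ha
    obtain ⟨b', hb', hrb⟩ := h5 τ hτ b hb
    have h6 : Psi (σ * τ * σ⁻¹ * τ⁻¹) N (a * b * a' * b') :=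
      e4 _ _ _ _ (e4 _ _ _ _ (e4 _ _ _ _ ha hb) ha') hb'
    have h7 : Ray N (a * b * a' * b') (⊤ : Ideal (OO k)) := by
      have h8 := r4 _ _ _ _ hra hrb
      rw [Ideal.top_mul] at h8
      have h9 : a * b * a' * b' = a * a' * (b * b') := by
        rw [mul_assoc a b a', mul_comm b a', ← mul_assoc a a' b, mul_assoc (a * a') b b']
      rw [h9]
      exact h8
    exact e3 _ _ _ h6 h7
  · intro τ hτ τ' hτ' a a' h h' hr
    obtain ⟨b, hb, hrb⟩ := h5 τ hτ a h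
    have h6 : Psi (τ⁻¹ * τ') N (b * a') := e4 _ _ _ _ hb h'
    have h7 : Ray N (b * a') (⊤ : Ideal (OO k)) := by
      have h8 := r4 _ _ _ _ (r1 b) (r2 _ _ hr)
      rw [mul_comm b a] at h8
      exact r3 _ _ _ h8 hrb
    exact e3 _ _ _ h6 h7

end Pool.Agent.DK.PI
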