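import Pool.Agent.Lib.DK.PI.SpecC
import Pool.Agent.Lib.DI.PI.RpS

set_option autoImplicit false

/-!
# THEOREM DK, Part I: sums over representatives in a group
-/

open scoped Pointwise

noncomputable section

namespace Pool.Agent.DK.PI

open Pool.Agent.MuZ Pool.Agent.DK
open Pool.Agent.DI.PI (Reps)

/-- Image of a system of representatives under an injective map. -/
private theorem RpT_img {G : Type} [Group G] (W H : Subgroup G) (R : Finset G) (e : G → G)
    (he : Function.Injective e) (hmem : ∀ r ∈ R, e r ∈ W)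
    (hex : ∀ x ∈ W, ∃ r ∈ R, (e r)⁻¹ * x ∈ H)
    (huni : ∀ r ∈ R, ∀ r' ∈ R, (e r)⁻¹ * e r' ∈ H → r = r') :
    ∃ R' : Finset G, Reps W H R' ∧
      ∀ (A : Type) [AddCommMonoid A] (F : G → A), ∑ r ∈ R', F r = ∑ r ∈ R, F (e r) := by
  classical
  refine ⟨R.image e, ⟨?_, ?_, ?_⟩, fun A _ F => ?_⟩
  · intro r hr
    obtain ⟨s, hs, rfl⟩ := Finset.mem_image.1 hr
    exact hmem s hs
  · intro x hx
    obtain ⟨r, hr, h⟩ := hex x hx
    exact ⟨e r, Finset.mem_image_of_mem e hr, h⟩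
  · intro r hr r' hr' h
    obtain ⟨s, hs, rfl⟩ := Finset.mem_image.1 hr
    obtain ⟨s', hs', rfl⟩ := Finset.mem_image.1 hr'
    rw [huni s hs s' hs' h]
  · exact Finset.sum_image fun x _ y _ h => he h

theorem pRpT : S_RpT := by
  classical
  intro G _ W H hHW
  refine ⟨fun hfin => ?_, fun t ht R hR => ?_, fun g hW hH R hR => ?_, fun g hg hH R hR => ?_⟩
  · have h : ∃ R, Reps W H R := (DI.PI.pRpS G W H H hHW le_rfl).2.2 hfin
    have e : rsys W H = h.choose := by
      unfold rsys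
      exact dif_pos h
    rw [e]
    exact h.choose_spec
  · refine RpT_img W H R (fun r => t * r) (mul_right_injective t)
      (fun r hr => W.mul_mem ht (hR.mem r hr)) (fun x hx => ?_) (fun r hr r' hr' h => ?_)
    · obtain ⟨r, hr, h⟩ := hR.ex (t⁻¹ * x) (W.mul_mem (W.inv_mem ht) hx)
      refine ⟨r, hr, ?_⟩
      have e : (t * r)⁻¹ * x = r⁻¹ * (t⁻¹ * x) := by group
      change (t * r)⁻¹ * x ∈ H
      rwa [e]
    · have e : (t * r)⁻¹ * (t * r') = r⁻¹ * r' := by group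
      have h' : (t * r)⁻¹ * (t * r') ∈ H := h
      rw [e] at h'
      exact hR.uni r hr r' hr' h'
  · refine RpT_img W H R (fun r => g * r * g⁻¹) (fun x y h => ?_)
      (fun r hr => (hW r).1 (hR.mem r hr)) (fun x hx => ?_) (fun r hr r' hr' h => ?_)
    · have h' : g * x * g⁻¹ = g * y * g⁻¹ := h
      exact mul_left_cancel (mul_right_cancel h')
    · have h1 : g⁻¹ * x * g ∈ W := by
        rw [hW]
        have e : g * (g⁻¹ * x * g) * g⁻¹ = x := by group
        rwa [e]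
      obtain ⟨r, hr, h⟩ := hR.ex _ h1
      refine ⟨r, hr, ?_⟩
      have h2 := (hH _).1 h
      have e : g * (r⁻¹ * (g⁻¹ * x * g)) * g⁻¹ = (g * r * g⁻¹)⁻¹ * x := by group
      rwa [e] at h2
    · have h' : (g * r * g⁻¹)⁻¹ * (g * r' * g⁻¹) ∈ H := h
      have e : (g * r * g⁻¹)⁻¹ * (g * r' * g⁻¹) = g * (r⁻¹ * r') * g⁻¹ := by group
      rw [e] at h'
      exact hR.uni r hr r' hr' ((hH _).2 h')
  · refine RpT_img W H R (fun r => r * g) (mul_left_injective g)
      (fun r hr => W.mul_mem (hR.mem r hr) hg) (fun x hx => ?_) (fun r hr r' hr' h => ?_)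
    · obtain ⟨r, hr, h⟩ := hR.ex (x * g⁻¹) (W.mul_mem hx (W.inv_mem hg))
      refine ⟨r, hr, ?_⟩
      change (r * g)⁻¹ * x ∈ H
      rw [hH]
      have e : g * ((r * g)⁻¹ * x) * g⁻¹ = r⁻¹ * (x * g⁻¹) := by group
      rwa [e]
    · have h' : (r * g)⁻¹ * (r' * g) ∈ H := h
      have h2 := (hH _).1 h'
      have e : g * ((r * g)⁻¹ * (r' * g)) * g⁻¹ = r⁻¹ * r' := by group
      rw [e] at h2
      exact hR.uni r hr r' hr' h2

end Pool.Agent.DK.PI
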