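import Pool.Agent.Lib.DK.PI.SpecD

set_option autoImplicit false

/-!
# THEOREM DK, Part I: `j(O)` and the values of the Weber function
-/

open scoped Pointwise

noncomputable section

namespace Pool.Agent.DK.PI

open Pool.Agent.MuZ Pool.Agent.DK
open Pool.Agent.DI (io ofC io_inj exists_io io_ofC ofC_io VP MP UP TP ex sqr sqr_sq kap)

private theorem We_j {s D G2 G3 : ℂ} (hs : s ≠ 0) (hD : D ≠ 0) (hD' : 1 - 16 * D ≠ 0)
    (h2 : 12 * G2 = s ^ 2 * ((16 * D) ^ 2 - 16 * D + 1))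
    (h4 : G2 ^ 3 - 27 * G3 ^ 2 = s ^ 6 * (D ^ 2 * (1 - 16 * D) ^ 2)) :
    G2 ^ 3 / (G2 ^ 3 - 27 * G3 ^ 2) =
      ((16 * D) ^ 2 - 16 * D + 1) ^ 3 / (1728 * (D ^ 2 * (1 - 16 * D) ^ 2)) := by
  have e : G2 = s ^ 2 * ((16 * D) ^ 2 - 16 * D + 1) / 12 := by
    rw [← h2]
    ring
  have hn : D ^ 2 * (1 - 16 * D) ^ 2 ≠ 0 := mul_ne_zero (pow_ne_zero 2 hD) (pow_ne_zero 2 hD')
  rw [h4, e, div_eq_div_iff (mul_ne_zero (pow_ne_zero 6 hs) hn) (mul_ne_zero (by norm_num) hn)]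
  ring

private theorem We_w {s D G2 G3 X p : ℂ} (hs : s ≠ 0) (hD : D ≠ 0) (hD' : 1 - 16 * D ≠ 0)
    (h1 : 12 * p = s * (1 + 16 * D))
    (h2 : 12 * G2 = s ^ 2 * ((16 * D) ^ 2 - 16 * D + 1))
    (h3 : 432 * G3 = s ^ 3 * ((1 + 16 * D) * (16 * D - 2) * (1 - 32 * D)))
    (h4 : G2 ^ 3 - 27 * G3 ^ 2 = s ^ 6 * (D ^ 2 * (1 - 16 * D) ^ 2)) :
    G2 * G3 / (G2 ^ 3 - 27 * G3 ^ 2) * (s * X + p) =
      ((16 * D) ^ 2 - 16 * D + 1) * ((1 + 16 * D) * (16 * D - 2) * (1 - 32 * D)) *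
        (12 * X + (1 + 16 * D)) / (62208 * (D ^ 2 * (1 - 16 * D) ^ 2)) := by
  have e : G2 = s ^ 2 * ((16 * D) ^ 2 - 16 * D + 1) / 12 := by
    rw [← h2]
    ring
  have e3 : G3 = s ^ 3 * ((1 + 16 * D) * (16 * D - 2) * (1 - 32 * D)) / 432 := by
    rw [← h3]
    ring
  have e1 : p = s * (1 + 16 * D) / 12 := by
    rw [← h1]
    ring
  have hn : D ^ 2 * (1 - 16 * D) ^ 2 ≠ 0 := mul_ne_zero (pow_ne_zero 2 hD) (pow_ne_zero 2 hD')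
  rw [h4, e, e3, e1, div_mul_eq_mul_div,
    div_eq_div_iff (mul_ne_zero (pow_ne_zero 6 hs) hn) (mul_ne_zero (by norm_num) hn)]
  ring

theorem pWe : S_We := by
  intro hG l1 l2 l6 b1 r1 r4 k _ M hM ⟨hd, hx, _⟩
  have ht : (⊤ : Ideal (OO k)) ≠ ⊥ := top_ne_bot
  obtain ⟨g1, g2, g3, g4⟩ := hG l1 l6 b1 k ⊤ ht
  obtain ⟨_, _, hs, hD, hD', _, _, hwp, _⟩ := b1 k ⊤ ht
  have hiD : io (dO (⊤ : Ideal (OO k))) = DC (⊤ : Ideal (OO k)) := (r1 k ⊤ ht).1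
  have hn : ∀ n : ℕ, (n : Om) ∈ RCF k M := fun n => natCast_mem (RCF k M) n
  have h1 : (1 : Om) ∈ RCF k M := one_mem _
  have h2 : (2 : Om) ∈ RCF k M := by exact_mod_cast hn 2
  have h12 : (12 : Om) ∈ RCF k M := by exact_mod_cast hn 12
  have h16 : (16 : Om) ∈ RCF k M := by exact_mod_cast hn 16
  have h32 : (32 : Om) ∈ RCF k M := by exact_mod_cast hn 32
  have h1728 : (1728 : Om) ∈ RCF k M := by exact_mod_cast hn 1728
  have h62208 : (62208 : Om) ∈ RCF k M := by exact_mod_cast hn 62208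
  have h16d := mul_mem h16 hd
  have hA : (16 * dO (⊤ : Ideal (OO k))) ^ 2 - 16 * dO (⊤ : Ideal (OO k)) + 1 ∈ RCF k M :=
    add_mem (sub_mem (pow_mem h16d 2) h16d) h1
  have hden : dO (⊤ : Ideal (OO k)) ^ 2 * (1 - 16 * dO (⊤ : Ideal (OO k))) ^ 2 ∈ RCF k M :=
    mul_mem (pow_mem hd 2) (pow_mem (sub_mem h1 h16d) 2)
  constructor
  · have e : ofC (jC k) = ((16 * dO (⊤ : Ideal (OO k))) ^ 2 - 16 * dO (⊤ : Ideal (OO k)) + 1) ^ 3 /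
        (1728 * (dO (⊤ : Ideal (OO k)) ^ 2 * (1 - 16 * dO (⊤ : Ideal (OO k))) ^ 2)) := by
      rw [← ofC_io (((16 * dO (⊤ : Ideal (OO k))) ^ 2 - 16 * dO (⊤ : Ideal (OO k)) + 1) ^ 3 /
        (1728 * (dO (⊤ : Ideal (OO k)) ^ 2 * (1 - 16 * dO (⊤ : Ideal (OO k))) ^ 2)))]
      congr 1
      simp only [map_div₀, map_mul, map_pow, map_sub, map_add, map_one, map_ofNat, hiD]
      unfold jC
      exact We_j hs hD hD' g2 g4
    rw [e]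
    exact div_mem (pow_mem hA 3) (mul_mem h1728 hden)
  · intro z hz hMz
    have hzt : Tor k z := ((l2 k).2.2.2.2.2.2.2 ⊤ z ht).2 ⟨M, hM, hMz⟩
    have hiX : io (xO (⊤ : Ideal (OO k)) z) = XC (⊤ : Ideal (OO k)) z := r4.1 k ⊤ ht z hzt
    have hxz := hx z hz hMz
    have e : ofC (weC k z) =
        ((16 * dO (⊤ : Ideal (OO k))) ^ 2 - 16 * dO (⊤ : Ideal (OO k)) + 1) *
          ((1 + 16 * dO (⊤ : Ideal (OO k))) * (16 * dO (⊤ : Ideal (OO k)) - 2) *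
            (1 - 32 * dO (⊤ : Ideal (OO k)))) *
          (12 * xO (⊤ : Ideal (OO k)) z + (1 + 16 * dO (⊤ : Ideal (OO k)))) /
        (62208 * (dO (⊤ : Ideal (OO k)) ^ 2 * (1 - 16 * dO (⊤ : Ideal (OO k))) ^ 2)) := by
      rw [← ofC_io (((16 * dO (⊤ : Ideal (OO k))) ^ 2 - 16 * dO (⊤ : Ideal (OO k)) + 1) *
          ((1 + 16 * dO (⊤ : Ideal (OO k))) * (16 * dO (⊤ : Ideal (OO k)) - 2) *
            (1 - 32 * dO (⊤ : Ideal (OO k)))) *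
          (12 * xO (⊤ : Ideal (OO k)) z + (1 + 16 * dO (⊤ : Ideal (OO k)))) /
        (62208 * (dO (⊤ : Ideal (OO k)) ^ 2 * (1 - 16 * dO (⊤ : Ideal (OO k))) ^ 2)))]
      congr 1
      simp only [map_div₀, map_mul, map_pow, map_sub, map_add, map_one, map_ofNat, hiD, hiX]
      unfold weC
      rw [hwp z]
      exact We_w hs hD hD' g1 g2 g3 g4
    rw [e]
    exact div_mem (mul_mem (mul_mem hA (mul_mem (mul_mem (add_mem h1 h16d) (sub_mem h16d h2))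
      (sub_mem h1 (mul_mem h32 hd)))) (add_mem (mul_mem h12 hxz) (add_mem h1 h16d)))
      (mul_mem h62208 hden)

end Pool.Agent.DK.PI
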