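import Pool.Agent.Lib.DK.PI.SpecC

/-!
# THEOREM DK, Part I, module gEx: the element g
-/

set_option autoImplicit false

open scoped Pointwise

noncomputable section

namespace Pool.Agent.DK.PI

open Pool.Agent.MuZ Pool.Agent.DK

theorem pgEx : S_gEx := by
  intro hLay k _ n hfd hL hst P χb hmul h1 hm hσ
  obtain ⟨m, hmo, hmm⟩ := hm
  obtain ⟨σ, hσG, hσ1⟩ := hσ
  have hidx := ((hLay 2 (KQ k) hfd).1 n (Kn k n) hL).2.2
  have hN : ((Kn k n).fixingSubgroup.subgroupOf (GK k)).Normal := by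
    constructor
    intro x hx g
    rw [Subgroup.mem_subgroupOf] at hx ⊢
    exact hst g.1 g.2 x.1 hx
  have hpow : (⟨σ, hσG⟩ : GK k) ^ ((Kn k n).fixingSubgroup.subgroupOf (GK k)).index ∈
      (Kn k n).fixingSubgroup.subgroupOf (GK k) := Subgroup.pow_index_mem _ _
  have hidx' : ((Kn k n).fixingSubgroup.subgroupOf (GK k)).index = 2 ^ n := hidx
  rw [hidx', Subgroup.mem_subgroupOf] at hpow
  have hg : σ ^ 2 ^ n ∈ (Kn k n).fixingSubgroup := hpow
  refine ⟨σ ^ 2 ^ n, hg, fun h => hσ1 ?_⟩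
  have hp : ∀ i : ℕ, χb (σ ^ i) = χb σ ^ i := by
    intro i
    induction i with
    | zero => rw [pow_zero, pow_zero, h1]
    | succ i ih => rw [pow_succ, pow_succ, hmul (σ ^ i) (Subgroup.pow_mem _ hσG i) σ hσG, ih]
  rw [hp] at h
  have h2 : orderOf (χb σ) ∣ 2 ^ n := orderOf_dvd_of_pow_eq_one h
  have h3 : orderOf (χb σ) ∣ m := orderOf_dvd_of_pow_eq_one (hmm σ hσG)
  have hc : Nat.Coprime (2 ^ n) m := Nat.Coprime.pow_left n (Nat.coprime_two_left.2 hmo)
  exact orderOf_eq_one_iff.1 (Nat.eq_one_of_dvd_coprimes hc h2 h3)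

end Pool.Agent.DK.PI
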