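import Pool.Agent.Lib.DI.PI.SpecC
import Pool.Agent.Lib.DK.IfaceG
import Pool.Agent.Lib.DK.IfaceH

/-!
# THEOREM DK, Part I (helper55), chapter C: from Thaine's argument to the hypothesis of the descent

Every `S_<Name>` is proved in its own module `Pool/Agent/Lib/DK/PI/<Name>.lean`, namespace `Pool.Agent.DK.PI`,
theorem `p<Name> : S_<Name>`; the statements named as hypotheses only have to be introduced. `S_O1`, ..., `S_E9` are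
the statements of `DK/Iface.lean`, `S_G3`, `S_GM`, `S_GR`, `S_G` of `DK/IfaceG.lean`, `S_H` of `DK/IfaceH.lean` (proved
by other parts). Most modules are EDITS of the modules `Pool/Agent/Lib/DI/PI/*.lean` of Theorem DI, with elements of
`O` prime to `N` replaced by ideals prime to `N`, divisibility by `N` replaced by the ray class relation `Ray N`;
the file to start from is named in the docstring. `Reps`, `HypI`, `Meas`, `tr`, `DI.PI.S_RpS`, `DI.PI.S_Kap`,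
`DI.PI.S_Tei`, `DI.PI.S_LyU` are those of DI (proved there: `pRpS`, `pKap`, `pTei`, `pLyU`).
USEFUL: `GK k` is the fixing subgroup of `KQ k` (by definition); `IntermediateField.mem_fixingSubgroup_iff`;
`InfiniteGalois.fixedField_fixingSubgroup`; `IntermediateField.fixingSubgroup_le` (antitone),
`IntermediateField.fixingSubgroup_isOpen`. For `⊤`: `Ideal.mul_top`, `Ideal.top_mul`; `(⊤ : Ideal (OO k)) ≠ ⊥`:
`top_ne_bot` (`OO k` is nontrivial). `NI ⊤ = 1`: `S_O2` for `⊤ = sp 1`.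
-/

set_option autoImplicit false

open scoped Pointwise nonZeroDivisors

noncomputable section

namespace Pool.Agent.DK.PI

open Pool.Agent.MuZ Pool.Agent.DK NumberField IsDedekindDomain
open Pool.Agent.DI (io ofC io_inj exists_io io_ofC ofC_io VP MP UP TP ex sqr sqr_sq kap)
open Pool.Agent.DI.PI (Reps HypI Meas tr)

/-- The ideals prime to `N`. -/
abbrev Gd {k : ℕ} (N : ℕ) (a : Ideal (OO k)) : Prop := a ≠ ⊥ ∧ PrI a N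

/-- The norm of `a` is `±1` modulo `2 ^ N`. -/
abbrev Nm1 {k : ℕ} (N : ℕ) (a : Ideal (OO k)) : Prop :=
  (2 : ℤ) ^ N ∣ (NI a : ℤ) - 1 ∨ (2 : ℤ) ^ N ∣ (NI a : ℤ) + 1

/-- `H` is (the property of belonging to) a group of ray classes modulo `N`. -/
structure NiceI {k : ℕ} (N : ℕ) (H : Ideal (OO k) → Prop) : Prop where
  top : H ⊤
  cop : ∀ a, H a → a ≠ ⊥ ∧ PrI a N
  ray : ∀ a a', H a → Ray N a a' → H a'
  mul : ∀ a a', H a → H a' → H (a * a')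

/-- The layers of the cyclotomic `ℤ_2`-extension of `FixI f H`. (`LyI f n (H2 f) = Ln k f (n + 2)` by `rfl`.) -/
def LyI {k : ℕ} (f n : ℕ) (H : Ideal (OO k) → Prop) : IntermediateField ℚ Om :=
  FixI (f * 2 ^ (n + 2)) (fun a => H a ∧ Nm1 (n + 2) a)

/-- The layers of the cyclotomic `ℤ_2`-extension of `K`. -/
def Kn (k n : ℕ) : IntermediateField ℚ Om := LyI (k := k) 1 n (fun a => a ≠ ⊥)

example (k f n : ℕ) : LyI f n (H2 (k := k) f) = Ln k f (n + 2) := rfl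

/-- A chosen system of representatives of the classes `g H`, `g ∈ W`. -/
def rsys {G : Type} [Group G] (W H : Subgroup G) : Finset G := by
  classical
  exact if h : ∃ R, Reps W H R then h.choose else ∅

/-- (100 lines) **The ray class group.** Uses `S_O1`, `S_O6`, `S_O7`.
PROOF. `C` is the quotient of `{a // Gd N a}` by the equivalence relation `Ray N` (`Setoid` from `S_O7` (1) - (3)), with
the product of ideals (`Quotient.map₂`, `S_O7` (4); `Gd N (a * b)`: `S_O6` (1) and `mul_ne_zero` in `Ideal (OO k)`,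
`OO k` is a domain by `S_O1`), unit `⊤` (`Gd N ⊤`: `⊤ ⊔ _ = ⊤`), inverse by choice (`S_O7` (9)). Group laws from those of
ideals. `c a` is the class of `a` if `Gd N a`, `1` otherwise. `C` is finite: the classes of the elements of the finite
set `R` of `S_O7` (10) (`IsRC.mem`, `IsRC.ex`) are everything. -/
def S_Cg : Prop :=
  S_O1 → S_O6 → S_O7 → ∀ (k : ℕ) [SqK k] (N : ℕ), 0 < N →
    ∃ (C : Type) (_ : CommGroup C) (_ : Finite C) (c : Ideal (OO k) → C),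
      (∀ a b : Ideal (OO k), Gd N a → Gd N b → c (a * b) = c a * c b) ∧
      (∀ a b : Ideal (OO k), Gd N a → Gd N b → (c a = c b ↔ Ray N a b)) ∧
      ∀ x : C, ∃ a : Ideal (OO k), Gd N a ∧ c a = x

/-- (100 lines) **Elementary existence.** Uses `S_O2`. Start from `DI/PI/Ar2.lean`.
PROOF. (1) `x f + y 2 ^ N = 1` (Bézout, `f` odd), `v = a y 2 ^ N + b x f`. (2) The map `y ↦ y + 2 k y ^ 2` on
`ZMod (2 ^ N)` is injective: `(y - y') (1 + 2 k (y + y')) = 0` and `1 + 2 t` is a unit. So it is surjective (finite set),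
there is `y` with `y + 2 k y ^ 2 ≡ c - 1`, and `Nm ⟨1, y⟩ = 1 + y + 2 k y ^ 2`; then (1) with `a = 1`, `b = ⟨1, y⟩` (the norm
modulo `2 ^ N` depends only on the class: an easy computation with the definition of `Nm`). -/
def S_Ar2 : Prop :=
  ∀ (k : ℕ) [SqK k],
    (∀ (f N : ℕ) (a b : OO k), Odd f → ∃ v : OO k, (f : OO k) ∣ v - a ∧ ((2 ^ N : ℕ) : OO k) ∣ v - b) ∧
    ∀ (f N : ℕ) (c : ℤ), Odd f → Odd c → ∃ v : OO k, (f : OO k) ∣ v - 1 ∧ (2 : ℤ) ^ N ∣ Nm v - c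

/-- (150 lines) **Exponents.** Uses `S_Cg`, `S_O1`, `S_O2`, `S_O4`, `S_O6`, `S_O7`.
PROOF. Let `C`, `c` be the ray class group modulo `f` (`S_Cg`), `e` its order, `e = 2 ^ t m`, `m` odd
(`Nat.exists_eq_two_pow_mul_odd`). `c (a ^ n) = c a ^ n` for `Gd f a` (induction). (1) `c (a ^ m) ^ 2 ^ t = c a ^ e = 1 = c ⊤`:
`Ray f ((a ^ m) ^ 2 ^ t) ⊤`. (2) Let `Gd (f 2 ^ N) a`, `H2 f a`, so `Gd f a` (`S_O6` (2)) and `x = c a` satisfies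
`x ^ 2 ^ j = 1` and `x ^ (2 ^ t m) = 1`, hence `x ^ 2 ^ t = 1` (`orderOf x` divides both; it is a power of `2` dividing
`2 ^ t m`, so it divides `2 ^ t`, `Nat.Coprime.dvd_of_dvd_mul_right`): `Ray f B ⊤`, `B = a ^ 2 ^ t`, i.e. `(α) B = (α')`,
`α - α' ∈ f O`, `α`, `α'` prime to `f`, not `0`. `α' ∈ (α) B ≤ (α)`, so `α' = α v` and `B = (v)` (cancel `(α)`, `S_O1`,
or: `x ∈ B → α x ∈ (α v) → x ∈ (v)`, and `α v ∈ (α) B` gives `v ∈ B`). `f ∣ α (v - 1)` and `α` is prime to `f`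
(`Cop`: `a' Nm α + b' f = 1` and `Nm α = α cjO α`), so `f ∣ v - 1`. If `N = 0` we are done (`e' = t`,
`Ray (f * 2 ^ 0) B ⊤` with `α = 1`, `α' = v`). Let `N ≥ 1`: `v` is prime to `2` (`PrI B (f 2 ^ N)`, `S_O6`), so not in
`pp k`, not in `ppb k`: `v.re` and `v.re + v.im` are odd (`S_O4`), `2 ∣ v - 1`. By induction `2 ^ (i + 1) ∣ v ^ 2 ^ i - 1`
(`x = 1 + 2 ^ (i+1) u`, `x ^ 2 = 1 + 2 ^ (i + 2) (...)`), so `w = v ^ 2 ^ N` satisfies `w ≡ 1` modulo `2 ^ N` and modulo `f`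
(`sub_one_dvd_pow_sub_one`..: `v - 1 ∣ v ^ n - 1`), so modulo `f 2 ^ N` (`x f + y 2 ^ N = 1`, see `S_Ar1` (8) of DI), and
`a ^ 2 ^ (t + N) = B ^ 2 ^ N = (w)`: `Ray (f 2 ^ N) (w) ⊤` with `α = 1`, `α' = w` (`Cop w (f 2 ^ N)` because `w` is `1`
modulo it, e.g. `Nm w ≡ 1`). (3) `top`: `j = 0`, `S_O7` (1). `cop`: `S_O7` (6) for `a ^ 2 ^ j` and `⊤`, and `S_O6` (1):
`PrI (a ^ n) f → PrI a f` for `n > 0`; `⊥ ^ n = ⊥`. `ray`: `Ray f (a ^ n) (a' ^ n)` by `S_O7` (4). `mul`: `j + j'`, `mul_pow`.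
(4) With `C`, `c` of `S_Cg` for `N`: `a' = a ^ (e - 1)` (`e ≥ 1` the order of `C`; if `e = 1` it is `⊤`, `a ^ 0 = ⊤`);
`H (a ^ n)` by induction. -/
def S_Ar3 : Prop :=
  S_Cg → S_O1 → S_O2 → S_O4 → S_O6 → S_O7 → ∀ (k : ℕ) [SqK k],
    (∀ f : ℕ, Odd f →
      (∃ m : ℕ, Odd m ∧ ∀ a : Ideal (OO k), Gd f a → H2 f (a ^ m)) ∧
      (∀ N : ℕ, ∃ e : ℕ, ∀ a : Ideal (OO k), Gd (f * 2 ^ N) a → H2 f a →
        Ray (f * 2 ^ N) (a ^ 2 ^ e) ⊤) ∧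
      NiceI f (H2 (k := k) f)) ∧
    ∀ (N : ℕ) (H : Ideal (OO k) → Prop), 0 < N → NiceI N H → ∀ a, H a → ∃ a', H a' ∧ Ray N (a * a') ⊤

/-- (60 lines) **The group of a layer.** Uses `S_O1`, `S_O2`, `S_O6`, `S_O7`, `S_O9`. Compare `DI/PI/NiL.lean`.
PROOF. `M = f * 2 ^ (n + 2)`. `top`: `NI ⊤ = 1` (`⊤ = sp 1`, `S_O2` (4), `Nm 1 = 1`). `cop`: `PrI a f` from `H`; the norm is odd, so
`(NI a).Coprime (2 ^ (n + 2))` and `PrI a (2 ^ (n + 2))` (`S_O6` (3)); `S_O6` (2). `ray`: `Ray f a a'` (`S_O7` (7), `f ∣ M`);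
`M ∣ NI a - NI a'` (`S_O9`; `PrI a' M`: `S_O7` (6)), so `2 ^ (n + 2)` divides it. `mul`: `NI (a * a') = NI a * NI a'`,
`(±1)(±1) = ±1`. -/
def S_NiL : Prop :=
  S_O1 → S_O2 → S_O6 → S_O7 → S_O9 → ∀ (k : ℕ) [SqK k] (f : ℕ) (H : Ideal (OO k) → Prop), 0 < f →
    NiceI f H → ∀ n : ℕ, NiceI (f * 2 ^ (n + 2)) (fun a => H a ∧ Nm1 (n + 2) a)

/-- (80 lines) **Elementary facts about `Psi`.** Uses `S_O7`, `S_E1`. Compare `DI/PI/Ps.lean`.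
PROOF. (1) directly from the definition of `Psi` (`AlgEquiv.one_apply`, `Ideal.top_mul`; `PrI ⊤ N`: `⊤ ⊔ _ = ⊤`). (2) `S_E1` (1)
gives `a'` with `Psi τ⁻¹ N a'`; `τ τ⁻¹ = 1` has `Psi 1 N (a a')` (`S_E1` (4)) and `Psi 1 N ⊤`: `S_E1` (2). (3) induction.
(4) with `σ⁻¹ : a'`, `τ⁻¹ : b'` of (2) the element has `Psi _ N (a b a' b')`, and `Ray N (a b a' b') ⊤`: `S_O7` (4) applied
to `a a'`, `b b'` and commutativity; `S_E1` (3). (5) `τ⁻¹ : b` as in (2), `Psi (τ⁻¹ τ') N (b a')`,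
`Ray N (b a') (b a)`, `Ray N (b a) ⊤`. -/
def S_Ps : Prop :=
  S_O7 → S_E1 → ∀ (k : ℕ) [SqK k] (N : ℕ), 0 < N →
    Psi 1 N (⊤ : Ideal (OO k)) ∧
    (∀ τ ∈ GK k, ∀ a : Ideal (OO k), Psi τ N a → ∃ a', Psi τ⁻¹ N a' ∧ Ray N (a * a') ⊤) ∧
    (∀ (τ : Gal(Om/ℚ)) (a : Ideal (OO k)) (n : ℕ), Psi τ N a → Psi (τ ^ n) N (a ^ n)) ∧
    (∀ σ ∈ GK k, ∀ τ ∈ GK k, Psi (σ * τ * σ⁻¹ * τ⁻¹) N (⊤ : Ideal (OO k))) ∧
    ∀ τ ∈ GK k, ∀ τ' ∈ GK k, ∀ a a' : Ideal (OO k), Psi τ N a → Psi τ' N a' → Ray N a a' →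
      Psi (τ⁻¹ * τ') N (⊤ : Ideal (OO k))

/-- (80 lines) **Galois theory for groups of ray classes.** Uses `S_O7`, `S_E1`, `S_E8`, `S_Ps`. Compare
`DI/PI/GalH.lean`.
PROOF. (1), (2), (4): `S_E8` (its hypotheses are `top`, `cop`, `ray`, `mul`). (3): (2) and
`IntermediateField.fixingSubgroup_le`. (5): the definition of `FixI` (if `τ ∈ GK`, `Psi τ N a`, `H a` then `τ x = x`).
(6): by (5): let `τ ∈ GK k`, `Psi τ N a`, `H a`. `σ⁻¹ τ σ` has `Psi _ N (b' a b)` with `Ray N (b b') ⊤` (`S_Ps` (2)), so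
`Ray N (b' a b) a` and `Psi (σ⁻¹ τ σ) N a`: it fixes `x` and `τ (σ x) = σ ((σ⁻¹ τ σ) x) = σ x`. (7): `S_Ps` (4) and (4)
(`H ⊤`). (8): (7) and (6): for `τ` in the fixing subgroup and `x ∈ FixI`: `σ⁻¹ x ∈ FixI`, so `σ τ σ⁻¹ x = x`. -/
def S_GalI : Prop :=
  S_O7 → S_E1 → S_E8 → S_Ps → ∀ (k : ℕ) [SqK k] (N : ℕ) (H : Ideal (OO k) → Prop), 0 < N → NiceI N H →
    FiniteDimensional ℚ (FixI N H) ∧ KQ k ≤ FixI N H ∧ (FixI N H).fixingSubgroup ≤ GK k ∧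
    (∀ τ ∈ GK k, ∀ a : Ideal (OO k), Psi τ N a → (τ ∈ (FixI N H).fixingSubgroup ↔ H a)) ∧
    (∀ x : Om, (∀ τ ∈ GK k, (∃ a : Ideal (OO k), Psi τ N a ∧ H a) → τ x = x) → x ∈ FixI N H) ∧
    (∀ σ ∈ GK k, ∀ x ∈ FixI N H, σ x ∈ FixI N H) ∧
    (∀ σ ∈ GK k, ∀ τ ∈ GK k, σ * τ * σ⁻¹ * τ⁻¹ ∈ (FixI N H).fixingSubgroup) ∧
    ∀ σ ∈ GK k, ∀ τ ∈ (FixI N H).fixingSubgroup, σ * τ * σ⁻¹ ∈ (FixI N H).fixingSubgroup

/-- (120 lines) **The norm of `a` and `Qcyc 2`.** Uses MuZ `S_TFix`, `S_O6`, `S_O9`, `S_E1`, `S_E6`. Start from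
`DI/PI/NoC.lean`.
PROOF. Let `τ ∈ GK k` fix `Qcyc 2`, `Psi τ (M 2 ^ N) a`. Let `a'` be given by `S_E1` for `M 2 ^ (N + 1)`. By `S_E1` (5)
`Psi τ (M 2 ^ N) a'`, so `Ray (M 2 ^ N) a a'` (`S_E1` (2)) and `M 2 ^ N ∣ NI a - NI a'` (`S_O9`, `Psi.cop`). Let `ζ` be a
primitive `2 ^ (N + 1)`-th root of unity in `Om` (`DI.tA2` in `DI/B/A12.lean`: `DI.zet (2 ^ (N+1))`). `S_E6`: `τ ζ = ζ ^ c`,
`c = NI a'`. `S_TFix` for `p = 2`: `τ ^ 2` fixes `ζ`: `ζ ^ (c ^ 2) = ζ`, `2 ^ (N + 1) ∣ c ^ 2 - 1 = (c - 1)(c + 1)`. `c` is odd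
(`c` is prime to `M 2 ^ (N + 1)`: `S_O6` (3), or because `2 ∣ c ^ 2 - 1`) and one of `(c - 1)/2`, `(c + 1)/2` is odd, so
`2 ^ N ∣ c - 1` or `2 ^ N ∣ c + 1`. -/
def S_NoC : Prop :=
  S_TFix → S_O6 → S_O9 → S_E1 → S_E6 → ∀ (k : ℕ) [SqK k], ∀ τ ∈ GK k, τ ∈ (Qcyc 2).fixingSubgroup →
    ∀ (M N : ℕ) (a : Ideal (OO k)), 0 < M → Psi τ (M * 2 ^ N) a → Nm1 N a

/-- (200 lines) **The layers.** Uses `S_NoC`, `S_GalI`, `S_NiL`, `S_Ps`, `S_Ar2`, `S_O..`, `S_E1`, `S_E7`, `S_E8`, MuZ `S_Lay`.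
Start from `DI/PI/LyH.lean`.
PROOF. `N = n + 2`, `H'` the predicate in `LyI`, nice by `S_NiL`; `L = FixI f H`, `F = LyI f n H`. `S_Lay` (second part) for
`k = L` and `Y = F.fixingSubgroup.subgroupOf L.fixingSubgroup`. `L ≤ F`: from the definition of `FixI`: if `τ ∈ GK k`,
`Psi τ (f 2 ^ N) a` and `H a ∧ _` then `Psi τ f a` (`S_E1` (5)), so `τ` fixes the elements of `L`. `Y` is open as `F` is finite
dimensional. `Y` contains `(cyc 2 L).fixingSubgroup`: by `fix_cyc` (`MuZ/AsmA.lean`) such a `τ` fixes `L` and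
`Qcyc 2`; `Psi τ (f 2 ^ N) a` (`S_E1`), `Psi τ f a`, `H a` by `S_GalI` (4), the norm is `±1` by `S_NoC`. INDEX: for
`τ ∈ L.fixingSubgroup` choose `a_τ` with `Psi τ (f 2 ^ N) a_τ`; `NI a_τ` is odd (`S_O6` (2), (3)), let `φ τ` be its class
in `(ZMod (2 ^ N))ˣ`. It does not depend on the choice (`S_E1` (2), `S_O9`) and is multiplicative (`S_E1` (4), `S_O2` (5)): a
homomorphism `φ : L.fixingSubgroup →* (ZMod (2 ^ N))ˣ`. It is surjective: for `c` odd `S_Ar2` (2) gives `v ≡ 1 mod f` with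
`Nm v ≡ c mod 2 ^ N`, so `v ≠ 0` and `Cop v (f 2 ^ N)`; `S_E7` for the ideal `(v)` (`NI (sp v) = Nm v`): `τ ∈ GK k` with
`Psi τ (f 2 ^ N) (sp v)`, and `Ray f ⊤ (sp v)` (`α = v`, `α' = 1`), so `H (sp v)` (`top`, `ray`): `τ` fixes `L`.
`Y = φ⁻¹ (zpowers (-1))` (`S_GalI` (4) for `F`; `H a_τ` holds for `τ` in `L.fixingSubgroup`). So the index is the one of
`zpowers (-1)` (`Subgroup.index_comap_of_surjective`), it is `2 ^ (N - 1) / 2 = 2 ^ n`. The field given by `S_Lay` has the same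
fixing subgroup as `F`, so it is `F`. -/
def S_LyI : Prop :=
  S_NoC → S_TFix → S_GalI → S_NiL → S_Ps → S_Ar2 → S_O1 → S_O2 → S_O6 → S_O7 → S_O9 → S_E1 → S_E6 →
  S_E7 → S_E8 → S_Lay → ∀ (k : ℕ) [SqK k] (f : ℕ) (H : Ideal (OO k) → Prop), Odd f → NiceI f H →
    ∀ n : ℕ, Layer 2 (FixI f H) n (LyI f n H)

/-- (50 lines) **The field `K` as `FixI`.** Uses `S_O1`, `S_O7`, `S_E1`, `S_E8`, `S_GalI`.
PROOF. `NiceI 1`: `top`: `top_ne_bot`. `cop`: `PrI a 1`: `span {((1 : ℕ) : OO k)} = ⊤`. `ray`: `S_O7` (6). `mul`: `mul_ne_zero`.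
`KQ k ≤ FixI 1 _`: `S_GalI` (2). `≥`: let `x ∈ FixI 1 _`; every `τ ∈ GK k` fixes it (`S_E1` (1) gives `a` with `Psi τ 1 a`,
`a ≠ ⊥` by `Psi.ne`), so `x ∈ KQ k` by `InfiniteGalois.fixedField_fixingSubgroup`. -/
def S_KF1 : Prop :=
  S_O1 → S_O7 → S_E1 → S_E8 → S_Ps → S_GalI → ∀ (k : ℕ) [SqK k],
    NiceI 1 (fun a : Ideal (OO k) => a ≠ ⊥) ∧ FixI 1 (fun a : Ideal (OO k) => a ≠ ⊥) = KQ k

/-- (80 lines) **A prime above `𝔭` exists.** Start from `DI/PI/ExP.lean`; complex conjugation: `DI.tA1` in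
`DI/B/A12.lean` (`S_A1` of DI).
PROOF. `wO k` is a root of `t ^ 2 = t - 2 k` (`io (wO k) = wC k`: `wC k` is algebraic, `wC_sq'`, `io_ofC`), so it is integral;
`w' : ZZ` the corresponding element. The ideal `I = (2, w')` of `ZZ` is not everything: the complex conjugation
`c ∈ Gal(Om/ℚ)` maps `wO` to `1 - wO` (apply `io`; `conj wC = 1 - wC`), so if `1 = 2 x + w' y` then
`1 = 2 x' + (1 - w') y'` and the product is `1 = 2 z + w' (1 - w') y y' = 2 (z + k y y')`; but `1 / 2` is not integral over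
`ℤ` (`IsIntegrallyClosed ℤ`). So `I` is contained in a maximal ideal `P` (`Ideal.exists_le_maximal`), `P ≠ ⊥` as `2 ≠ 0`.
`MP P 2`, `MP P wO`: `b = 1`. Second part: if `2 b = a` with `a ∈ P`, `b ∉ P` then `2 ∈ P`. -/
def S_ExP : Prop :=
  ∀ (k : ℕ) [SqK k], (∃ P : Ideal ZZ, AbP k P) ∧
    ∀ P : Ideal ZZ, AbP k P → (2 : ZZ) ∈ P ∧ Npr P ∧ MP P 2

/-- (150 lines) **The lift of a character.** Uses `DI.PI.S_Tei`, `S_Ps`, `S_GalI`, `S_Ar3`, `S_O..`, `S_E1`, `S_E7`. Start from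
`DI/PI/Chi.lean`.
PROOF. `m` from `S_Ar3` (1), `t` from `S_Tei`. For `a` with `Gd f a`: `S_E7` gives `τ ∈ GK k` with `Psi τ f a`; put `σ = τ⁻¹`, so
`Psi σ⁻¹ f a`. FACT 1: if `σ, σ' ∈ GK k`, `Psi σ⁻¹ f a`, `Psi σ'⁻¹ f a'`, `Ray f a a'` then `χb σ = χb σ'`: `σ σ'⁻¹` has
`Psi _ f ⊤` (`S_Ps` (5) for `σ⁻¹`, `σ'⁻¹`), so it fixes `Lf k f = FixI f (H2 f)` (`S_GalI`; `NiceI` by `S_Ar3`), so
`χb σ = χb (σ σ'⁻¹) χb σ' = χb σ'`. FACT 2: `(χb σ) ^ m = 1` for `σ ∈ GK k`: `Psi σ f a` (`S_E1`), `Psi (σ ^ m) f (a ^ m)`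
(`S_Ps` (3)), `H2 f (a ^ m)`, so `σ ^ m` fixes `Lf k f` (`χb (σ ^ m) = (χb σ) ^ m` by induction; `χb 1 = 1` since `1` fixes
`Lf k f`). DEFINITION: `χ a = t (χb σ)` for some `σ ∈ GK k` with `Psi σ⁻¹ f a` if `Gd f a`, `χ a = 0` otherwise; by FACT 1 it
does not depend on `σ` and depends only on the class. `zero`, `ray`: clear. `mul`: if one of `a`, `b` is not in `Gd f` then
`a b` is not (`S_O6` (1); `a * b = ⊥ ↔ ..`, `S_O1`) and both sides are `0`; otherwise `(σ_a σ_b)⁻¹ = σ_b⁻¹ σ_a⁻¹` has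
`Psi _ f (b a)` (`S_E1` (4)) and `t` is multiplicative. `odd`: `(t x) ^ m = 1`. Last property: definition, `mk (t x) = x`, `Psi.ne`,
`Psi.cop`. -/
def S_Chi : Prop :=
  DI.PI.S_Tei → S_Ps → S_GalI → S_Ar3 → S_Cg → S_O1 → S_O2 → S_O4 → S_O6 → S_O7 → S_E1 → S_E7 → S_E8 →
  ∀ (k : ℕ) [SqK k] (f : ℕ), Odd f → ∀ P : Ideal ZZ, P.IsPrime → (2 : ZZ) ∈ P →
  ∀ χb : Gal(Om/ℚ) → ZZ ⧸ P, (∀ σ ∈ GK k, ∀ τ ∈ GK k, χb (σ * τ) = χb σ * χb τ) →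
    (∀ σ ∈ (Lf k f).fixingSubgroup, χb σ = 1) →
    ∃ χ : Ideal (OO k) → ZZ, IsChi f (fun a => (χ a : Om)) ∧
      (∀ σ ∈ GK k, ∀ a : Ideal (OO k), Psi σ⁻¹ f a → Ideal.Quotient.mk P (χ a) = χb σ) ∧
      ∃ m : ℕ, Odd m ∧ ∀ σ ∈ GK k, χb σ ^ m = 1

/-- The data given by Part G. -/
structure GDat (k f : ℕ) (m : Ideal (OO k)) (P : Ideal ZZ) (d : Gal(Om/ℚ))
    (T : ℕ → Finset (OO k)) : Prop where
  odd : Odd f
  three : 3 ≤ f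
  mne : m ≠ ⊥
  m2 : PrI m 2
  mf : PrI m f
  ab : AbP k P
  dec : ∀ x : ZZ, x ∈ P → d • x ∈ P
  fix : ∀ n : ℕ, ∀ x ∈ Mn k f n, d x = x
  fi : ∀ i : Om, i ^ 2 = -1 → d i = i
  rep : ∀ n : ℕ, IsRep f (n + 2) (T n)

/-- The functions `b n` on `Gal(L'_n/K)`. -/
def bb {k : ℕ} (f : ℕ) (m : Ideal (OO k)) (d : Gal(Om/ℚ)) (T : ℕ → Finset (OO k)) (n : ℕ)
    (σ : Gal(Om/ℚ)) : ZMod 2 :=
  kap (σ⁻¹ (uN f (n + 2) m (T n) ⊤)) d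

/-- The functions `A n` on `Gal(L_n/K)`. -/
def AA {k : ℕ} (f : ℕ) (m : Ideal (OO k)) (d : Gal(Om/ℚ)) (T : ℕ → Finset (OO k)) (n : ℕ)
    (σ : Gal(Om/ℚ)) : ZMod 2 :=
  ∑ s ∈ rsys (Ln k f (n + 2)).fixingSubgroup (Mn k f (n + 2)).fixingSubgroup, bb f m d T n (σ * s)

/-- The functions `a n` on `Gal(L_n/K)`. -/
def aG {k : ℕ} (f : ℕ) (m : Ideal (OO k)) (d : Gal(Om/ℚ)) (T : ℕ → Finset (OO k))
    (g : Gal(Om/ℚ)) (n : ℕ) (σ : Gal(Om/ℚ)) : ZMod 2 :=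
  AA f m d T n (σ * g⁻¹) + AA f m d T n σ

/-- (80 lines) **The fields `L_n` and `L'_n`.** Uses `S_E8`, `S_E9`, `S_GM`, `S_Ar3`, `S_NiL`, `S_GalI`.
PROOF. `Ln k f (n + 2) = LyI f n (H2 f)` (`rfl`), `Lf k f = FixI f (H2 f)` (`rfl`), `NiceI` by `S_Ar3` (3), `S_NiL`; `S_GalI` for
both. The same for `Mf k f = FixI f (HP f)`, `Mn k f (n + 2) = FixI _ (HPN f (n + 2))` (`NiceI` from `S_GM`). `Lf ≤ Ln`: if
`Psi τ (f 2 ^ N) a` and `H2 f a ∧ _` then `Psi τ f a` (`S_E1` (5)): definition of `FixI`. `Ln ≤ Mn`: `S_E9` (last part), and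
`Mn.fixingSubgroup ≤ Ln.fixingSubgroup`. The relative index of `Mn.fixingSubgroup` in `Ln.fixingSubgroup` is not `0`: the
subgroup is open (`Mn` is finite dimensional), so of finite index in the compact group `Gal(Om/ℚ)`
(`Subgroup.relIndex_ne_zero..`, `Subgroup.finiteIndex_of_..`; see `DI/PI/JLay.lean`, `MuZ/AsmA.lean`). (6): if
`τ ∈ (Ln k f N').fixingSubgroup` with `N' = n + 3` then `H2N f (n + 2) a` follows from `H2N f (n + 3) a`: definition of `FixI`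
again; the same for `Mn`: `S_GM`. -/
def S_LM : Prop :=
  S_Cg → S_Ar3 → S_NiL → S_Ps → S_GalI → S_O1 → S_O2 → S_O4 → S_O6 → S_O7 → S_O9 → S_E1 → S_E8 → S_E9 →
  S_GM → ∀ (k : ℕ) [SqK k] (f : ℕ), Odd f → 3 ≤ f →
    (Lf k f).fixingSubgroup ≤ GK k ∧
    ∀ n : ℕ,
      (Ln k f (n + 2)).fixingSubgroup ≤ (Lf k f).fixingSubgroup ∧
      (Mn k f (n + 2)).fixingSubgroup ≤ (Ln k f (n + 2)).fixingSubgroup ∧
      (Mn k f (n + 2)).fixingSubgroup.relIndex (Ln k f (n + 2)).fixingSubgroup ≠ 0 ∧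
      (Ln k f (n + 1 + 2)).fixingSubgroup ≤ (Ln k f (n + 2)).fixingSubgroup ∧
      (Mn k f (n + 1 + 2)).fixingSubgroup ≤ (Mn k f (n + 2)).fixingSubgroup ∧
      (Mn k f (n + 1 + 2)).fixingSubgroup.relIndex (Mn k f (n + 2)).fixingSubgroup ≠ 0 ∧
      (∀ σ ∈ GK k, ∀ τ ∈ (Ln k f (n + 2)).fixingSubgroup,
        σ * τ * σ⁻¹ ∈ (Ln k f (n + 2)).fixingSubgroup) ∧
      (∀ σ ∈ GK k, ∀ τ ∈ (Mn k f (n + 2)).fixingSubgroup,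
        σ * τ * σ⁻¹ ∈ (Mn k f (n + 2)).fixingSubgroup) ∧
      (∀ σ ∈ GK k, ∀ τ ∈ GK k, σ * τ * σ⁻¹ * τ⁻¹ ∈ (Mn k f (n + 2)).fixingSubgroup) ∧
      ∀ τ ∈ GK k, ∀ a : Ideal (OO k), Psi τ (f * 2 ^ (n + 2)) a →
        (τ ∈ (Mn k f (n + 2)).fixingSubgroup ↔ HPN f (n + 2) a)

/-- (60 lines) **Invariance of `b n`.** Uses `S_G3`, `S_E1`, `S_O6`. Start from `DI/PI/MInv.lean`.
PROOF. `(σ τ)⁻¹ u = τ⁻¹ (σ⁻¹ u)`; `S_E1` gives `a` with `Psi σ⁻¹ (f 2 ^ (n + 2)) a`; `S_G3`: `σ⁻¹ u(⊤) = u(a * ⊤) = u(a)`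
(`Gd (2 f) a` from `Psi.ne`, `Psi.cop`, `S_O6` (2): `f 2 ^ (n + 2) = (2 f) 2 ^ (n + 1)`), which is in `Mn k f (n + 2)`, so it is
fixed by `τ⁻¹`. -/
def S_BInv : Prop :=
  S_G3 → S_E1 → S_O6 → ∀ (k : ℕ) [SqK k] (f : ℕ) (m : Ideal (OO k)) (P : Ideal ZZ) (d : Gal(Om/ℚ))
    (T : ℕ → Finset (OO k)), GDat k f m P d T → ∀ n : ℕ, ∀ σ ∈ GK k,
    (∀ τ ∈ (Mn k f (n + 2)).fixingSubgroup, bb f m d T n (σ * τ) = bb f m d T n σ) ∧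
    ∀ a : Ideal (OO k), Psi σ⁻¹ (f * 2 ^ (n + 2)) a → Gd (2 * f) a ∧
      bb f m d T n σ = kap (uN f (n + 2) m (T n) a) d

/-- (150 lines) **Norm compatibility of `b n`.** Uses `S_BInv`, `S_G3`, `DI.PI.S_Kap`, `S_GM`, `S_Ps`, `S_Ar2`, `S_E1`, `S_E7`. Start
from `DI/PI/MNrm.lean`.
PROOF. `N = n + 2`, `F = Mn k f N`, `F' = Mn k f (N + 1)`, `M' = f 2 ^ (N + 1)`. For `τ ∈ F.fixingSubgroup` (`≤ GK k`) let
`Psi τ M' a`; then `Psi τ (f 2 ^ N) a` (`S_E1` (5)), `HPN f N a` and `τ ∈ F'.fixingSubgroup` iff `HPN f (N + 1) a` iff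
`Nm1 (N + 1) a` (`S_GM`: the description of `HPN` by `HP` and the norm). If `τ, τ' ∈ F.fixingSubgroup` are both not in
`F'.fixingSubgroup` then `τ⁻¹ τ'` is: both norms are `± (1 + 2 ^ N)` modulo `2 ^ (N + 1)` (as `MNrm_num` of DI). There is an element
`t` of `F.fixingSubgroup` not in `F'.fixingSubgroup`: `v ≡ 1 mod f`, `Nm v ≡ 1 + 2 ^ N mod 2 ^ (N + 1)` (`S_Ar2` (2)),
`τ` with `Psi τ M' (sp v)` (`S_E7`; `v ≠ 0`, `PrI (sp v) M'` by `S_O6` (4)): `HPN f N (sp v)` (`HP f (sp v)`: `HP` of `⊤` and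
`Ray f ⊤ (sp v)`; norm `≡ 1 mod 2 ^ N`), not `Nm1 (N + 1)` as `N ≥ 2`. So `R = {r₁, r₂}`, `r₁ ∈ F'.fixingSubgroup`,
`r₂ ∉ F'.fixingSubgroup`. Put `x = σ⁻¹ u'`, `u' = u_(n+1)(⊤)`: it is `u'(a)` for `Psi σ⁻¹ M' a` (`S_BInv`), in `F'`, so
`r₁⁻¹ x = x` and the sum is `kap x d + kap (r₂⁻¹ x) d = kap (x * r₂⁻¹ x) d` (`S_Kap`; `x` and `r₂⁻¹ x` are in `F'` [`r₂⁻¹ x` is
`u'` of another ideal by `S_G3`], so they are fixed by `d`, and not `0`). `S_G3` (last part) with `b = a`, `T = T n`, `T' = T (n + 1)`,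
`s = r₂⁻¹ ∈ GK k`, `Psi s M' a'`, `HPN f N a'`, `¬ HPN f (N + 1) a'`: `x * s x = u_n(a)`, so the sum is `kap (u_n(a)) d = bb n σ`
(`S_BInv` (2); `Psi σ⁻¹ (f 2 ^ N) a` by `S_E1` (5)). -/
def S_BNrm : Prop :=
  S_BInv → S_G3 → DI.PI.S_Kap → S_GM → S_Ps → S_Ar2 → S_O1 → S_O2 → S_O6 → S_O7 → S_O9 → S_E1 →
  S_E7 → ∀ (k : ℕ) [SqK k] (f : ℕ) (m : Ideal (OO k)) (P : Ideal ZZ) (d : Gal(Om/ℚ))
    (T : ℕ → Finset (OO k)), GDat k f m P d T →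
    (∀ n : ℕ, (Mn k f (n + 2)).fixingSubgroup ≤ GK k) → ∀ n : ℕ, ∀ σ ∈ GK k, ∀ R : Finset Gal(Om/ℚ),
    Reps (Mn k f (n + 2)).fixingSubgroup (Mn k f (n + 1 + 2)).fixingSubgroup R →
    ∑ r ∈ R, bb f m d T (n + 1) (σ * r) = bb f m d T n σ

/-- (120 lines) **Sums over representatives in a group.** Uses nothing (`G` is any group). Auxiliary module for
`S_AInv`, `S_ANrm`, `S_AThm`, `S_ANv`. Compare `DI/PI/RpS.lean`.
PROOF. (1) `rsys W H` satisfies `Reps` (`Classical.choose_spec`; existence is `RpS` (3)). (2) for `t ∈ W`: `{t r : r ∈ R}` is a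
system of representatives: `(t r)⁻¹ g = r⁻¹ (t⁻¹ g)`; the map is injective. (3) for `g ∈ Z` normalising `W` and `H` (the
hypotheses): `{g r g⁻¹ : r ∈ R}`: in `W`; for `x ∈ W`: `g⁻¹ x g ∈ W`, `r⁻¹ (g⁻¹ x g) ∈ H`, conjugate by `g`. (4) for `g ∈ W`
normalising `H`: `{r g : r ∈ R}`: `(r g)⁻¹ x = g⁻¹ (r⁻¹ (x g⁻¹)) g`. In all cases the sum over the image is the sum over
`R` of the composed function (`Finset.sum_image`). -/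
def S_RpT : Prop :=
  ∀ (G : Type) [Group G] (W H : Subgroup G), H ≤ W →
    (H.relIndex W ≠ 0 → Reps W H (rsys W H)) ∧
    (∀ t ∈ W, ∀ R : Finset G, Reps W H R → ∃ R' : Finset G, Reps W H R' ∧
      ∀ (A : Type) [AddCommMonoid A] (F : G → A), ∑ r ∈ R', F r = ∑ r ∈ R, F (t * r)) ∧
    (∀ g : G, (∀ x : G, x ∈ W ↔ g * x * g⁻¹ ∈ W) → (∀ x : G, x ∈ H ↔ g * x * g⁻¹ ∈ H) →
      ∀ R : Finset G, Reps W H R → ∃ R' : Finset G, Reps W H R' ∧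
        ∀ (A : Type) [AddCommMonoid A] (F : G → A), ∑ r ∈ R', F r = ∑ r ∈ R, F (g * r * g⁻¹)) ∧
    ∀ g ∈ W, (∀ x : G, x ∈ H ↔ g * x * g⁻¹ ∈ H) → ∀ R : Finset G, Reps W H R →
      ∃ R' : Finset G, Reps W H R' ∧
        ∀ (A : Type) [AddCommMonoid A] (F : G → A), ∑ r ∈ R', F r = ∑ r ∈ R, F (r * g)

/-- (100 lines) **Properties of `A n`.** Uses `S_BInv`, `DI.PI.S_RpS`, `S_RpT`, `S_BNrm`, `S_LM` (their conclusions `hb`, `hn`, `hl`).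
PROOF. `W = (Ln k f (n+2)).fixingSubgroup`, `H = (Mn k f (n+2)).fixingSubgroup`, both `≤ GK k`. (1) for every system `S` of
representatives of `W / H`: `AA n σ = ∑ s ∈ S, bb n (σ s)`: `S_RpT` (1), `S_RpS` (1) for `F s = bb n (σ s)`, invariant by
`hb`. (2) for `τ ∈ W`: `AA n (σ τ) = ∑ s, bb n (σ (τ s))`, `S_RpT` (2) and (1). (3) let `R` be representatives of
`W / W'`, `W' = (Ln k f (n+3)).fixingSubgroup`, `H' = (Mn k f (n+3)).fixingSubgroup`. `∑ r ∈ R, AA (n+1) (σ r) = ∑ r ∈ R, ∑ s ∈ S',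
bb (n+1) (σ r s)`, `S'` representatives of `W' / H'`; by `S_RpS` (2) it is the sum over a system of representatives of `W / H'`.
On the other hand take `S` for `W / H` and `R'` for `H / H'` (`RpS` (3), `hl`): `∑ s ∈ S, ∑ r' ∈ R', bb (n+1) (σ s r') =
∑ s ∈ S, bb n (σ s) = AA n σ` by `hn` for `σ s ∈ GK k`, and by `S_RpS` (2) this is also a sum over a system of representatives of
`W / H'`; both are equal by `S_RpS` (1) (`F x = bb (n+1) (σ x)` is invariant under `H'`). -/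
def S_AP : Prop :=
  DI.PI.S_RpS → S_RpT → ∀ (k : ℕ) [SqK k] (f : ℕ) (m : Ideal (OO k)) (d : Gal(Om/ℚ))
    (T : ℕ → Finset (OO k)),
    (∀ n : ℕ, ∀ σ ∈ GK k, ∀ τ ∈ (Mn k f (n + 2)).fixingSubgroup,
      bb f m d T n (σ * τ) = bb f m d T n σ) →
    (∀ n : ℕ, ∀ σ ∈ GK k, ∀ R : Finset Gal(Om/ℚ),
      Reps (Mn k f (n + 2)).fixingSubgroup (Mn k f (n + 1 + 2)).fixingSubgroup R →
      ∑ r ∈ R, bb f m d T (n + 1) (σ * r) = bb f m d T n σ) →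
    (∀ n : ℕ, (Ln k f (n + 2)).fixingSubgroup ≤ GK k ∧
      (Mn k f (n + 2)).fixingSubgroup ≤ (Ln k f (n + 2)).fixingSubgroup ∧
      (Mn k f (n + 2)).fixingSubgroup.relIndex (Ln k f (n + 2)).fixingSubgroup ≠ 0 ∧
      (Ln k f (n + 1 + 2)).fixingSubgroup ≤ (Ln k f (n + 2)).fixingSubgroup ∧
      (Mn k f (n + 1 + 2)).fixingSubgroup ≤ (Mn k f (n + 2)).fixingSubgroup ∧
      (Mn k f (n + 1 + 2)).fixingSubgroup.relIndex (Mn k f (n + 2)).fixingSubgroup ≠ 0) →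
    ∀ n : ℕ, ∀ σ ∈ GK k,
      (∀ S : Finset Gal(Om/ℚ), Reps (Ln k f (n + 2)).fixingSubgroup (Mn k f (n + 2)).fixingSubgroup S →
        AA f m d T n σ = ∑ s ∈ S, bb f m d T n (σ * s)) ∧
      (∀ τ ∈ (Ln k f (n + 2)).fixingSubgroup, AA f m d T n (σ * τ) = AA f m d T n σ) ∧
      ∀ R : Finset Gal(Om/ℚ),
        Reps (Ln k f (n + 2)).fixingSubgroup (Ln k f (n + 1 + 2)).fixingSubgroup R →
        ∑ r ∈ R, AA f m d T (n + 1) (σ * r) = AA f m d T n σ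

/-- (80 lines) **Properties of `a n`.** Uses the conclusion of `S_AP` (`hA`), `S_RpT`. `W n = (Ln k f (n+2)).fixingSubgroup`.
PROOF. (1) `σ τ g⁻¹ = (σ g⁻¹) (g τ g⁻¹)`, `g τ g⁻¹ ∈ W n`. (2) `∑ r, AA (n+1) (σ r g⁻¹) = ∑ r, AA (n+1) (σ g⁻¹ (g r g⁻¹))`; `S_RpT` (3)
for `W n`, `W (n+1)` (both are stable under conjugation by `g` and `g⁻¹`) turns this into the sum over another system of
representatives: `AA n (σ g⁻¹)` by `hA`. -/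
def S_aP : Prop :=
  S_RpT → ∀ (k : ℕ) [SqK k] (f : ℕ) (m : Ideal (OO k)) (d : Gal(Om/ℚ)) (T : ℕ → Finset (OO k)),
    (∀ n : ℕ, ∀ σ ∈ GK k,
      (∀ τ ∈ (Ln k f (n + 2)).fixingSubgroup, AA f m d T n (σ * τ) = AA f m d T n σ) ∧
      ∀ R : Finset Gal(Om/ℚ),
        Reps (Ln k f (n + 2)).fixingSubgroup (Ln k f (n + 1 + 2)).fixingSubgroup R →
        ∑ r ∈ R, AA f m d T (n + 1) (σ * r) = AA f m d T n σ) →
    (∀ n : ℕ, (Ln k f (n + 2)).fixingSubgroup ≤ GK k ∧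
      (Ln k f (n + 1 + 2)).fixingSubgroup ≤ (Ln k f (n + 2)).fixingSubgroup ∧
      ∀ σ ∈ GK k, ∀ τ ∈ (Ln k f (n + 2)).fixingSubgroup,
        σ * τ * σ⁻¹ ∈ (Ln k f (n + 2)).fixingSubgroup) →
    ∀ g ∈ GK k, ∀ n : ℕ, ∀ σ ∈ GK k,
      (∀ τ ∈ (Ln k f (n + 2)).fixingSubgroup, aG f m d T g n (σ * τ) = aG f m d T g n σ) ∧
      ∀ R : Finset Gal(Om/ℚ),
        Reps (Ln k f (n + 2)).fixingSubgroup (Ln k f (n + 1 + 2)).fixingSubgroup R →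
        ∑ r ∈ R, aG f m d T g (n + 1) (σ * r) = aG f m d T g n σ

/-- (150 lines) **Thaine's relation for `a n`.** Uses `S_H`, `DI.PI.S_RpS`, `S_RpT`, and the conclusions of the other modules.
PROOF. Fix `n`. `W = (Ln k f (n+2)).fixingSubgroup`, `H = (Mn k f (n+2)).fixingSubgroup ≤ W ≤ GK k`, both stable under
conjugation by `GK k`. For `τ ∈ W` and a system `R` of representatives of `GK k / W` let
`Φ_R τ = ∑ r ∈ R, AA n r * φ (r τ r⁻¹)` (`φ = f'` the given element of `VV`). The function `r ↦ AA n r * φ (r τ r⁻¹)` is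
invariant under `r ↦ r t`, `t ∈ W`: `r t τ t⁻¹ r⁻¹ = x (r τ r⁻¹) x⁻¹` with `x = r t r⁻¹ ∈ W`, and `φ (x y x⁻¹) = φ y` for
`x, y ∈ W` (additive on `W`, `φ x + φ x⁻¹ = φ 1 = 0`). So `Φ_R = Φ` does not depend on `R` (`S_RpS` (1)). (1) `Φ` is additive on
`W`. (2) `Φ τ = 0` for `τ ∈ H`: with `S` representatives of `W / H` and `Sg` the products (`S_RpS` (2)):
`Φ τ = ∑ r, ∑ s, bb n (r s) * φ (r τ r⁻¹) = ∑ r, ∑ s, bb n (r s) * φ (r s τ (r s)⁻¹) = ∑ σ ∈ Sg, bb n σ * φ (σ τ σ⁻¹)`. Let `φ'` be `φ`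
on `H` and `0` outside: `φ' ∈ VV 2 (Loc 2) H` (the four conditions are inherited as `H ≤ W`); `σ τ σ⁻¹ ∈ H`. `S_H` with
`b = ⊤`, `T = T n`: the sum is `0` (`d ∈ H` by `GDat.fix`; `Sg` are representatives of `GK k / H`). (3) for `g ∈ GK k`, `τ ∈ W`:
`g τ g⁻¹ τ⁻¹ ∈ H` (commutator), so `Φ (g τ g⁻¹) = Φ (g τ g⁻¹ τ⁻¹) + Φ τ = Φ τ`. (4) `∑ r ∈ R, AA n (r g⁻¹) * φ (r τ r⁻¹)`: by
`S_RpT` (4) (with `g⁻¹ ∈ GK k`) it is `Φ_(R g⁻¹) (g τ g⁻¹)`: `r = (r g⁻¹) g`. So the sum in question is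
`Φ (g τ g⁻¹) + Φ τ = 2 Φ τ = 0`. -/
def S_AThm : Prop :=
  S_H → DI.PI.S_RpS → S_RpT → ∀ (k : ℕ) [SqK k] (f : ℕ) (m : Ideal (OO k)) (P : Ideal ZZ)
    (d : Gal(Om/ℚ)) (T : ℕ → Finset (OO k)), GDat k f m P d T →
    ∀ n : ℕ, (Ln k f (n + 2)).fixingSubgroup ≤ GK k →
    (Mn k f (n + 2)).fixingSubgroup ≤ (Ln k f (n + 2)).fixingSubgroup →
    (Mn k f (n + 2)).fixingSubgroup.relIndex (Ln k f (n + 2)).fixingSubgroup ≠ 0 →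
    (∀ σ ∈ GK k, ∀ τ ∈ (Ln k f (n + 2)).fixingSubgroup,
      σ * τ * σ⁻¹ ∈ (Ln k f (n + 2)).fixingSubgroup) →
    (∀ σ ∈ GK k, ∀ τ ∈ (Mn k f (n + 2)).fixingSubgroup,
      σ * τ * σ⁻¹ ∈ (Mn k f (n + 2)).fixingSubgroup) →
    (∀ σ ∈ GK k, ∀ τ ∈ GK k, σ * τ * σ⁻¹ * τ⁻¹ ∈ (Mn k f (n + 2)).fixingSubgroup) →
    (∀ σ ∈ GK k,
      (∀ S : Finset Gal(Om/ℚ), Reps (Ln k f (n + 2)).fixingSubgroup (Mn k f (n + 2)).fixingSubgroup S →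
        AA f m d T n σ = ∑ s ∈ S, bb f m d T n (σ * s)) ∧
      ∀ τ ∈ (Ln k f (n + 2)).fixingSubgroup, AA f m d T n (σ * τ) = AA f m d T n σ) →
    ∀ g ∈ GK k, ∀ φ ∈ VV 2 (Loc 2) (Ln k f (n + 2)).fixingSubgroup,
      ∀ τ ∈ (Ln k f (n + 2)).fixingSubgroup, ∀ R : Finset Gal(Om/ℚ),
      Reps (GK k) (Ln k f (n + 2)).fixingSubgroup R →
      ∑ r ∈ R, aG f m d T g n r * φ (r * τ * r⁻¹) = 0

/-- (200 lines) **The system `D`.** Uses the statements named. Compare `DI/PI/MNv.lean`.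
PROOF. `N = n + 2`, `M = f 2 ^ N`, `E = Kn k n = FixI (1 * 2 ^ N) (fun a => a ≠ ⊥ ∧ Nm1 N a)` (nice by `S_KF1`, `S_NiL` for `f = 1`),
`F = Mn k f N`; for `τ ∈ GK k`, `Psi τ M a`: `τ ∈ E.fixingSubgroup ↔ Nm1 N a` (`S_E1` (5), `1 * 2 ^ N ∣ M`, `S_GalI` (4)) and
`τ ∈ F.fixingSubgroup ↔ HPN f N a ↔ HP f a ∧ Nm1 N a` (`S_LM` last part, `S_GM`). `c_r = c r` for `r ∈ R`. (1) let
`c_r = c_r'`; `S_Ps` (5) for `r⁻¹`, `r'⁻¹`: `r r'⁻¹` has `Psi _ M ⊤`, so it is in `F.fixingSubgroup`, and so is its conjugate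
`r'⁻¹ r` (`S_LM`), `uni`. (2) `mem`: `Psi.ne`, `Psi.cop` (`2 f` divides `M`), and `r⁻¹ ∈ E.fixingSubgroup`. `ex`: let `Gd f b`.
`S_O8` (`C` = everything, `N = f`, `M = 2`): `b₁`, `Gd (f * 2) b₁`, `Ray f b b₁`; its norm `ν` is odd (`S_O6` (3)). Let `c' ν ≡ 1`
modulo `2 ^ N`, `c'` odd, `v` from `S_Ar2` (2) with `v ≡ 1 mod f`, `Nm v ≡ c' mod 2 ^ N` (so `v ≠ 0`, `Cop v M`), `b' = sp v * b₁`:
`NI b' ≡ 1 mod 2 ^ N`, `PrI b' M`, `Ray f b₁ b'` (`α = v`, `α' = 1`). `S_E7`: `τ ∈ GK k`, `Psi τ M b'`; `τ` and `τ⁻¹` are in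
`E.fixingSubgroup`, so `r⁻¹ τ⁻¹ ∈ F.fixingSubgroup` for some `r ∈ R`: `Psi (r⁻¹ τ⁻¹) M e`, `HP f e`, and `r⁻¹ = (r⁻¹ τ⁻¹) τ` has
`Psi _ M (e b')`: `Ray M c_r (e b')` (`S_E1` (2)), hence modulo `f`. `e'` with `HP f e'`, `Ray f (e e') ⊤` (`S_Ar3` (4), `HP f` is nice by
`S_GM`): `b ~ b' ~ e' e b' ~ e' c_r`. `uni`: let `HP f a`, `Ray f c_r' (a c_r)`. `r'⁻¹ r` has `Psi _ M (c_r' e)` where `Psi r M e`,
`Ray M (c_r e) ⊤` (`S_Ps` (2)); `c_r' e ~ a c_r e ~ a` modulo `f`, so `HP f (c_r' e)`, and `r'⁻¹ r ∈ E.fixingSubgroup`, so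
`Nm1 N (c_r' e)`: `r'⁻¹ r ∈ F.fixingSubgroup`, `r' = r`. -/
def S_DS : Prop :=
  S_Cg → S_Ar2 → S_Ar3 → S_NiL → S_Ps → S_GalI → S_KF1 → S_LM → S_O1 → S_O2 → S_O4 → S_O6 → S_O7 →
  S_O8 → S_O9 → S_E1 → S_E7 → S_E8 → S_E9 → S_GM → ∀ (k : ℕ) [SqK k] (f n : ℕ), Odd f → 3 ≤ f →
    (Kn k n).fixingSubgroup ≤ GK k ∧ (Mn k f (n + 2)).fixingSubgroup ≤ (Kn k n).fixingSubgroup ∧
    ∀ R : Finset Gal(Om/ℚ), Reps (Kn k n).fixingSubgroup (Mn k f (n + 2)).fixingSubgroup R →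
      ∀ c : Gal(Om/ℚ) → Ideal (OO k), (∀ r ∈ R, Psi r⁻¹ (f * 2 ^ (n + 2)) (c r)) →
        (∀ r ∈ R, ∀ r' ∈ R, c r = c r' → r = r') ∧
          ∃ D : Finset (Ideal (OO k)), (∀ a, a ∈ D ↔ ∃ r ∈ R, c r = a) ∧ IsDS f (n + 2) D

/-- (150 lines) **The component does not vanish.** Uses `DI.PI.S_RpS`, `S_RpT`. `W = (Kn k n).fixingSubgroup`,
`V = (Ln k f (n+2)).fixingSubgroup`, `H = (Mn k f (n+2)).fixingSubgroup`, `H ≤ V ≤ W ≤ GK k` (hypotheses).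
PROOF. The map `x ↦ (x.val : ZZ ⧸ P)` from `ZMod 2` is a ring homomorphism (`2 = 0` in `ZZ ⧸ P`; check the four values).
STEP 1. `Σ' = ∑ r ∈ R', (bb n r).val * χb r ≠ 0`: it is the class of `x = ∑ a ∈ D, χ a * (kap (u a) d).val ∈ ZZ` (the sum over `D` is the
sum over `R'` of the values at `c r`, `c` is injective on `R'`; `bb n r = kap (u (c r)) d` by `S_BInv` (2);
`mk (χ (c r)) = χb r` because `Psi r⁻¹ f (c r)`, `S_E1` (5)), and `x ∉ P` because `x ∈ P` would give `MP P x` (with the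
denominator `1`). STEP 2. `Σ = ∑ r ∈ R, (AA n r).val * χb r = Σ'` for all systems `R` of representatives of `W / V`: `AA n r = ∑ s ∈ S, bb n (r s)`
(`S` representatives of `V / H`, `S_RpS` (3)), `χb r = χb (r s)` (`χb s = 1`: `s ∈ V ≤ (Lf k f).fixingSubgroup`), the products `r s`
represent `W / H` (`S_RpS` (2)), and the function `x ↦ (bb n x).val * χb x` is invariant under `H` (`S_RpS` (1)). STEP 3.
`∑ r ∈ R, (AA n (r g⁻¹)).val * χb r = χb g * ∑ r, (AA n (r g⁻¹)).val * χb (r g⁻¹) = χb g * Σ` by `S_RpT` (4) (`g⁻¹ ∈ W`, `V` is stable under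
conjugation) and STEP 2. Total: `(χb g + 1) Σ'`, not `0` as `χb g ≠ 1 = -1` and `ZZ ⧸ P` is a domain. -/
def S_ANv : Prop :=
  DI.PI.S_RpS → S_RpT → S_BInv → S_G3 → S_E1 → S_O6 → ∀ (k : ℕ) [SqK k] (f : ℕ) (m : Ideal (OO k))
    (P : Ideal ZZ) (d : Gal(Om/ℚ)) (T : ℕ → Finset (OO k)), GDat k f m P d T → (2 : ZZ) ∈ P →
  ∀ n : ℕ, (Kn k n).fixingSubgroup ≤ GK k →
    (Ln k f (n + 2)).fixingSubgroup ≤ (Kn k n).fixingSubgroup →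
    (Ln k f (n + 2)).fixingSubgroup ≤ (Lf k f).fixingSubgroup →
    (Mn k f (n + 2)).fixingSubgroup ≤ (Ln k f (n + 2)).fixingSubgroup →
    (Mn k f (n + 2)).fixingSubgroup.relIndex (Ln k f (n + 2)).fixingSubgroup ≠ 0 →
    (∀ σ ∈ GK k, ∀ τ ∈ (Ln k f (n + 2)).fixingSubgroup,
      σ * τ * σ⁻¹ ∈ (Ln k f (n + 2)).fixingSubgroup) →
    (∀ σ ∈ GK k,
      (∀ S : Finset Gal(Om/ℚ), Reps (Ln k f (n + 2)).fixingSubgroup (Mn k f (n + 2)).fixingSubgroup S →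
        AA f m d T n σ = ∑ s ∈ S, bb f m d T n (σ * s)) ∧
      ∀ τ ∈ (Ln k f (n + 2)).fixingSubgroup, AA f m d T n (σ * τ) = AA f m d T n σ) →
  ∀ (χb : Gal(Om/ℚ) → ZZ ⧸ P) (χ : Ideal (OO k) → ZZ),
    (∀ σ ∈ GK k, ∀ τ ∈ GK k, χb (σ * τ) = χb σ * χb τ) →
    (∀ σ ∈ (Lf k f).fixingSubgroup, χb σ = 1) →
    (∀ σ ∈ GK k, ∀ a : Ideal (OO k), Psi σ⁻¹ f a → Ideal.Quotient.mk P (χ a) = χb σ) →
  ∀ (R' : Finset Gal(Om/ℚ)) (c : Gal(Om/ℚ) → Ideal (OO k)) (D : Finset (Ideal (OO k))),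
    Reps (Kn k n).fixingSubgroup (Mn k f (n + 2)).fixingSubgroup R' →
    (∀ r ∈ R', Psi r⁻¹ (f * 2 ^ (n + 2)) (c r)) → (∀ r ∈ R', ∀ r' ∈ R', c r = c r' → r = r') →
    (∀ a, a ∈ D ↔ ∃ r ∈ R', c r = a) →
    ¬ MP P (∑ a ∈ D, (χ a : Om) * ((kap (uN f (n + 2) m (T n) a) d).val : Om)) →
  ∀ g ∈ (Kn k n).fixingSubgroup, χb g ≠ 1 → ∀ R : Finset Gal(Om/ℚ),
    Reps (Kn k n).fixingSubgroup (Ln k f (n + 2)).fixingSubgroup R →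
    ∑ r ∈ R, ((aG f m d T g n r).val : ZZ ⧸ P) * χb r ≠ 0

/-- (60 lines) **The element `g`.** Uses `S_LyI`, `S_KF1` (conclusions).
PROOF. `σ ∈ GK k` with `χb σ ≠ 1`. `E = Kn k n` is stable under `GK k` (hypothesis), so `(Kn k n).fixingSubgroup.subgroupOf (GK k)` is
normal in `GK k`, of index `2 ^ n` (`Layer 2 (KQ k) n (Kn k n)`: MuZ `S_Lay` (1)), so `g = σ ^ 2 ^ n ∈ (Kn k n).fixingSubgroup`
(`Subgroup.pow_index_mem`). `χb g = (χb σ) ^ 2 ^ n` (induction, `χb 1 = 1`). If it were `1` then, as `(χb σ) ^ m = 1` with `m` odd,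
`χb σ = 1` (`2 ^ n` and `m` are coprime; `pow_eq_one_iff..`, `orderOf_dvd_of_pow_eq_one` in the monoid `ZZ ⧸ P`). -/
def S_gEx : Prop :=
  S_Lay → ∀ (k : ℕ) [SqK k] (n : ℕ), FiniteDimensional ℚ (KQ k) → Layer 2 (KQ k) n (Kn k n) →
    (∀ σ ∈ GK k, ∀ τ ∈ (Kn k n).fixingSubgroup, σ * τ * σ⁻¹ ∈ (Kn k n).fixingSubgroup) →
    ∀ (P : Ideal ZZ) (χb : Gal(Om/ℚ) → ZZ ⧸ P),
      (∀ σ ∈ GK k, ∀ τ ∈ GK k, χb (σ * τ) = χb σ * χb τ) → χb 1 = 1 →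
      (∃ m : ℕ, Odd m ∧ ∀ σ ∈ GK k, χb σ ^ m = 1) → (∃ σ ∈ GK k, χb σ ≠ 1) →
      ∃ g ∈ (Kn k n).fixingSubgroup, χb g ≠ 1

/-- (150 lines) **The hypothesis of the descent for `Lf k f`.** Assembly. Start from `DI/PI/HypC.lean`. The last
hypotheses are the conclusions of `S_LyI`, `DI.PI.S_LyU`.
PROOF. `P` with `AbP k P` (`S_ExP`). Let `χb` be given (nontrivial), `χ` and `m₀` (odd) from `S_Chi`. `m` := `sp q` for a prime number `q`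
not dividing `2 f` (`PrI`: `S_O6` (4), `Nm q = q ^ 2`; `m ≠ ⊤` as `NI m = q ^ 2 ≠ 1`). `S_G` for `fun a => (χ a : Om)`: `N0`; `n0 = N0 - 2`,
`N0 = n0 + 2`. `T n` from `S_GR` (choice) for `n + 2`. `R'` : representatives of `(Kn k n0).fixingSubgroup / (Mn k f N0).fixingSubgroup`
(`S_RpS` (3), finite index), `c r` from `S_E1` for `r⁻¹`, `D` from `S_DS`. `S_G` for `N = N0`, `T n0`, `D`: `d`. `GDat`. `g` from `S_gEx`.
`a = aG f m d T g`. The layers: `Layer 2 (Lf k f) n F` iff `F = Ln k f (n + 2)` (`hly` for `H = H2 f`, nice by `S_Ar3`, and `hlu`);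
`Layer 2 (KQ k) n E` iff `E = Kn k n` (`hly` for `f = 1`, `S_KF1`). `S_AP` (from `S_BInv`, `S_BNrm`, `S_LM`), `S_aP`: `inv`, `nrm`; `S_AThm`:
`thm`; `S_ANv`: `nv`; `(Ln k f (n+2)).fixingSubgroup ≤ (Kn k n).fixingSubgroup`: `Kn ≤ Ln` (definition of `FixI`, `S_E1` (5)). -/
def S_HypC : Prop :=
  S_ExP → S_Chi → S_LM → S_BInv → S_BNrm → S_RpT → S_AP → S_aP → S_AThm → S_DS → S_ANv → S_gEx →
  DI.PI.S_RpS → DI.PI.S_Kap → DI.PI.S_Tei → S_Cg → S_Ar2 → S_Ar3 → S_NiL → S_Ps → S_GalI → S_KF1 →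
  S_O1 → S_O2 → S_O4 → S_O6 → S_O7 → S_O8 → S_O9 → S_E1 → S_E6 → S_E7 → S_E8 → S_E9 → S_Lay →
  S_GR → S_GM → S_G3 → S_G → S_H → ∀ (k : ℕ) [SqK k],
  (∀ (f : ℕ) (H : Ideal (OO k) → Prop), Odd f → NiceI f H → ∀ n : ℕ,
    Layer 2 (FixI f H) n (LyI f n H)) →
  (∀ F : IntermediateField ℚ Om, FiniteDimensional ℚ F →
    ∀ (n : ℕ) (F₁ F₂ : IntermediateField ℚ Om), Layer 2 F n F₁ → Layer 2 F n F₂ → F₁ = F₂) →
  ∀ f : ℕ, Odd f → 3 ≤ f → HypI 2 (KQ k) (Lf k f)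

/-- (100 lines) **The field `Lf k f` over `K`.** Start from `DI/PI/LK0.lean`.
PROOF. `Lf k f = FixI f (H2 f)`, nice (`S_Ar3`). (1), (2), (3) `S_GalI`. (4) `S_GalI` (7): `σ τ σ⁻¹ τ⁻¹` fixes `τ σ x ∈ Lf k f`
(by (3)): `σ τ x = (σ τ σ⁻¹ τ⁻¹) (τ σ x) = τ σ x`. (5) Let `G = GK k`, `D = (Lf k f).fixingSubgroup.subgroupOf G`: normal,
`G ⧸ D` is a finite group in which every element has odd order (`m` of `S_Ar3` (1): `τ ^ m` has `Psi _ f (a ^ m)` and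
`H2 f (a ^ m)`), so its order is odd (Cauchy, `exists_prime_orderOf_dvd_card`). Its order is
`finrank ℚ (Lf k f) / finrank ℚ (KQ k)`. If `2 finrank KQ ∣ finrank Lf` then `2` divides the index. -/
def S_LK0 : Prop :=
  S_Cg → S_Ar3 → S_Ps → S_GalI → S_O1 → S_O2 → S_O4 → S_O6 → S_O7 → S_E1 → S_E8 →
  ∀ (k : ℕ) [SqK k] (f : ℕ), Odd f → 3 ≤ f →
    FiniteDimensional ℚ (Lf k f) ∧ KQ k ≤ Lf k f ∧
    (∀ σ ∈ (KQ k).fixingSubgroup, ∀ x ∈ Lf k f, σ x ∈ Lf k f) ∧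
    (∀ σ ∈ (KQ k).fixingSubgroup, ∀ τ ∈ (KQ k).fixingSubgroup, ∀ x ∈ Lf k f, σ (τ x) = τ (σ x)) ∧
    ¬ 2 * Module.finrank ℚ (KQ k) ∣ Module.finrank ℚ (Lf k f)

/-- (80 lines) **`μ = 0` for `K`.** Uses `DI.PI.S_JPe`, `ThmA` and `XFinGen 2 (cyc 2 ⊥)`. Start from `DI/PI/KQ0.lean`.
PROOF. `S_JPe` for `p = 2`, `k = E = ⊥`, `L = KQ k`: `KQ k` is finite dimensional (`wO k` is algebraic); it is stable
under every `σ`: `σ (wO k)` is a root of `t ^ 2 = t - 2 k` (`io (wO k) = wC k`, `wC_sq'`), so it is `wO k` or `1 - wO k`; and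
`σ (σ (wO k)) = wO k` in both cases, so `σ ^ 2 ^ 1` fixes `KQ k` (`a = 1`). -/
def S_KQ0 : Prop :=
  DI.PI.S_JPe → ThmA → XFinGen 2 (cyc 2 (⊥ : IntermediateField ℚ Om)) → ∀ (k : ℕ) [SqK k],
    FiniteDimensional ℚ (KQ k) ∧ XFinGen 2 (cyc 2 (KQ k))

end Pool.Agent.DK.PI
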