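import Pool.Agent.Lib.DK.PI.SpecC

/-!
# THEOREM DK, Part I (helper55), chapter D: the ray class fields and the field of the Weber function

Same conventions as in `SpecC.lean`: `S_<Name>` is proved in the module `Pool/Agent/Lib/DK/PI/<Name>.lean`, theorem
`p<Name> : S_<Name>`; the statements named as hypotheses only have to be introduced.
-/

set_option autoImplicit false

open scoped Pointwise nonZeroDivisors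

noncomputable section

namespace Pool.Agent.DK.PI

open Pool.Agent.MuZ Pool.Agent.DK NumberField IsDedekindDomain
open Pool.Agent.DI (io ofC io_inj exists_io io_ofC ofC_io VP MP UP TP ex sqr sqr_sq kap)

/-- The ray class field modulo `M` (the field of all elements fixed by the `τ` with `Psi τ M ⊤`). -/
def RCF (k M : ℕ) : IntermediateField ℚ Om := FixI M (fun a : Ideal (OO k) => Ray M a ⊤)

/-- (80 lines) **The invariants of the lattice.** Uses `S_L1`, `S_L6`, `S_B1`.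
PROOF. `s = s2 b`, `D = DC b`, `℘(z) = s X(z) + ℘(S)` (`S_B1`), `X(S) = 0`, `X(T) = -1/4`, `X(S + T) = -4 D`; so the values
`e₁ = ℘(S)`, `e₂ = ℘(T)`, `e₃ = ℘(S + T)` are `e₁`, `e₁ - s/4`, `e₁ - 4 D s`; they are different because `s ≠ 0`, `D ≠ 0`,
`1 - 16 D ≠ 0`. The three points are not in `Lam b = (LP b).lattice` (`S_L6`, `S_L1`), twice the point is in `Lam b`, so
`℘' = 0` there (`S_B1`), and the differential equation of Mathlib (`PeriodPair.derivWeierstrassP_sq`: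
`℘' ^ 2 = 4 ℘ ^ 3 - g₂ ℘ - g₃` outside of the lattice; look up the exact form) gives `4 e_i ^ 3 - g₂ e_i - g₃ = 0` for
`i = 1, 2, 3`. Subtract: `4 (e₁² + e₁ e₂ + e₂²) = g₂ = 4 (e₁² + e₁ e₃ + e₃²)`, subtract again: `(e₂ - e₃)(e₁ + e₂ + e₃) = 0`, so
`3 e₁ = s (1 + 16 D)/4`. The rest is algebra (`g₂ = 4 (e₁² + e₁ e₂ + e₂²)`, `g₃ = 4 e₁³ - g₂ e₁`; the last formula follows from the
two before). -/
def S_G23 : Prop :=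
  S_L1 → S_L6 → S_B1 → ∀ (k : ℕ) [SqK k] (b : Ideal (OO k)), b ≠ ⊥ →
    12 * wpC b (ptS b) = s2 b * (1 + 16 * DC b) ∧
    12 * (LP b).g₂ = s2 b ^ 2 * ((16 * DC b) ^ 2 - 16 * DC b + 1) ∧
    432 * (LP b).g₃ = s2 b ^ 3 * ((1 + 16 * DC b) * (16 * DC b - 2) * (1 - 32 * DC b)) ∧
    (LP b).g₂ ^ 3 - 27 * (LP b).g₃ ^ 2 = s2 b ^ 6 * (DC b ^ 2 * (1 - 16 * DC b) ^ 2)

/-- (100 lines) **`𝒟(O)` and `X(z; O)` are in the ray class field.** Uses `S_O2`, `S_O6`, `S_L2`, `S_B1`, `S_B7`.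
PROOF. By the definition of `FixI`: let `τ ∈ GK k`, `Psi τ M a`, `Ray M a ⊤`: `sp α * a = sp α' * ⊤ = sp α'`, `M ∣ α - α'`,
`α, α' ≠ 0`, `Cop α M`. (1) `τ (dO ⊤) = dO (a * ⊤) = dO a` (`Psi.dd`), and `DC a = DC (sp α * a) = DC (sp α' * ⊤) = DC ⊤` (`S_B7`,
`Psi.ne`). (2) `τ (xO ⊤ z) = xO (a * ⊤) z = xO a z` (`Psi.xx`). `M > 1`, because `z ∉ Lam ⊤`. Choose `β` with `M ∣ α β - 1`
(`Cop α M`: `x Nm α + y M = 1`, `β = x cjO α`, `S_O2` (7)); then `M ∣ α' β - 1`, and `β ≠ 0` as `M > 1`. For `u` with `M ∣ u - 1`: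
`toC u * z = z + toC (u - 1) * z`, `toC (u - 1) * z = toC u' * (M z) ∈ Lam ⊤` (`S_L2`), and `Lam ⊤ ⊆ Lam (a * ⊤) = Lam a`
(`S_L2` (3)). So `XC a z = XC a (toC (α β) * z) = XC (sp (α β) * a) z` (`S_B1` periods, `S_B7`), `sp (α β) * a = sp β * sp α' =
sp (α' β) * ⊤`, and `XC (sp (α' β) * ⊤) z = XC ⊤ (toC (α' β) * z) = XC ⊤ z`. (3) elements of `GK k` fix `wO k`. -/
def S_RX : Prop :=
  S_O1 → S_O2 → S_L2 → S_B1 → S_B7 → ∀ (k : ℕ) [SqK k] (M : ℕ), 0 < M →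
    dO (⊤ : Ideal (OO k)) ∈ RCF k M ∧
    (∀ z : ℂ, z ∉ Lam (⊤ : Ideal (OO k)) → (M : ℂ) * z ∈ Lam (⊤ : Ideal (OO k)) →
      xO (⊤ : Ideal (OO k)) z ∈ RCF k M) ∧ wO k ∈ RCF k M

/-- (100 lines) **`j(O)` and the Weber function.** The hypothesis is the conclusion of `S_RX`.
PROOF. `S_G23` for `b = ⊤`; `s = s2 ⊤ ≠ 0`, `D = DC ⊤ ≠ 0`, `1 - 16 D ≠ 0` (`S_B1`). (1) `jC k = ((16 D) ^ 2 - 16 D + 1) ^ 3 /
(1728 D ^ 2 (1 - 16 D) ^ 2)`. `d = dO ⊤`, `io d = D` (`S_R1`); the element `j' = ((16 d) ^ 2 - 16 d + 1) ^ 3 / (1728 d ^ 2 (1 - 16 d) ^ 2)` of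
`Om` has `io j' = jC k` (`map_div₀`, ...), so `ofC (jC k) = j'` (`ofC_io`), and `j' ∈ RCF k M` (a field, `div_mem`, ...).
(2) `℘(z; O) = s (X(z) + (1 + 16 D)/12)`, so `weC k z = ((16 D) ^ 2 - 16 D + 1) (1 + 16 D)(16 D - 2)(1 - 32 D) (X(z) + (1 + 16 D)/12) /
(5184 D ^ 2 (1 - 16 D) ^ 2)` (`5184 = 12 * 432`). `io (xO ⊤ z) = XC ⊤ z` (`S_R4`; `Tor k z` by `S_L2` (8) with `N = M`). As before. -/
def S_We : Prop :=
  S_G23 → S_L1 → S_L2 → S_L6 → S_B1 → S_R1 → S_R4 → ∀ (k : ℕ) [SqK k] (M : ℕ), 0 < M →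
    (dO (⊤ : Ideal (OO k)) ∈ RCF k M ∧
      (∀ z : ℂ, z ∉ Lam (⊤ : Ideal (OO k)) → (M : ℂ) * z ∈ Lam (⊤ : Ideal (OO k)) →
        xO (⊤ : Ideal (OO k)) z ∈ RCF k M) ∧ wO k ∈ RCF k M) →
    ofC (jC k) ∈ RCF k M ∧
    ∀ z : ℂ, z ∉ Lam (⊤ : Ideal (OO k)) → (M : ℂ) * z ∈ Lam (⊤ : Ideal (OO k)) →
      ofC (weC k z) ∈ RCF k M

/-- (100 lines) **Number fields inside the field of the Weber function.** The last hypothesis is the conclusion of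
`S_RX` and `S_We`. Start from `DI/PI/FT.lean`.
PROOF. `F` is finitely generated (`IntermediateField.fg_of_finiteDimensional` or a basis of `F`): `F = adjoin ℚ G`, `G`
finite. Every `g ∈ G` is in `Wf k = adjoin ℚ A`, so in `adjoin ℚ A_g` for a finite `A_g ⊆ A`
(`IntermediateField.exists_finset_of_mem_adjoin`). Let `B` be the union of the `A_g`: finite, `F ≤ adjoin ℚ B`. For
`a ∈ B`: `a = wO k` or `a = ofC (jC k)` or `a = ofC (weC k z_a)` with `Tor k z_a`, `z_a ∉ Lam ⊤`; in the last case there is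
`n_a > 0` with `n_a z_a ∈ Lam ⊤` (`S_L2` (8)); otherwise `n_a = 1`. Let `M = 3 * ∏ n_a > 0`, `M = f 2 ^ N` with `f` odd
(`Nat.exists_eq_two_pow_mul_odd`); `3 ∣ f` as `3 ∣ f 2 ^ N`, so `3 ≤ f`. `n_a ∣ M`, so `M z_a ∈ Lam ⊤` (`S_L2`) and `a ∈ RCF k M` by the
last hypothesis. -/
def S_FT : Prop :=
  S_L2 → ∀ (k : ℕ) [SqK k], (∀ M : ℕ, 0 < M → wO k ∈ RCF k M ∧ ofC (jC k) ∈ RCF k M ∧
      ∀ z : ℂ, z ∉ Lam (⊤ : Ideal (OO k)) → (M : ℂ) * z ∈ Lam (⊤ : Ideal (OO k)) →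
        ofC (weC k z) ∈ RCF k M) →
    ∀ F : IntermediateField ℚ Om, FiniteDimensional ℚ F → F ≤ Wf k →
      ∃ f N : ℕ, Odd f ∧ 3 ≤ f ∧ F ≤ RCF k (f * 2 ^ N)

/-- (80 lines) **The field `RCF`.** Uses `S_Ar3`, `S_GalI`, `S_Ps`, `S_O7`, `S_E1`, `S_E8`. Compare `DI/PI/MN1.lean`.
PROOF. `M = f 2 ^ N > 0`. `H = fun a => Ray M a ⊤` is nice: `top`: `S_O7` (1); `cop`: `S_O7` (6) (`⊤ ≠ ⊥`, `PrI ⊤ M`); `ray`: (2), (3);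
`mul`: (4), `⊤ * ⊤ = ⊤`. `H2 f` is nice (`S_Ar3`). (1), (2): `S_GalI` (1), (6). (3): `S_GalI` (2) for `H2 f`. (4): definition of `FixI`: `x ∈ Lf k f`,
`τ ∈ GK k`, `Psi τ M a`, `Ray M a ⊤`: then `Psi τ f a` (`S_E1` (5)) and `Ray f (a ^ 2 ^ 0) ⊤` (`S_O7` (7)), so `τ x = x`. (5) Let `a = e` be
given by `S_Ar3` (2). Let `σ` fix `Lf k f`; `σ ∈ GK k`, `Psi σ M b` (`S_E1`), `Psi σ f b`, so `H2 f b` (`S_GalI` (4)), `Gd M b`;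
`Psi (σ ^ 2 ^ e) M (b ^ 2 ^ e)` (`S_Ps` (3)) and `Ray M (b ^ 2 ^ e) ⊤`: `σ ^ 2 ^ e` fixes `RCF k M` (`S_GalI` (4)). -/
def S_MN1 : Prop :=
  S_Cg → S_Ar3 → S_Ps → S_GalI → S_O1 → S_O2 → S_O4 → S_O6 → S_O7 → S_E1 → S_E8 →
  ∀ (k : ℕ) [SqK k] (f N : ℕ), Odd f → 3 ≤ f →
    FiniteDimensional ℚ (RCF k (f * 2 ^ N)) ∧
    (∀ σ ∈ (KQ k).fixingSubgroup, ∀ x ∈ RCF k (f * 2 ^ N), σ x ∈ RCF k (f * 2 ^ N)) ∧
    KQ k ≤ Lf k f ∧ Lf k f ≤ RCF k (f * 2 ^ N) ∧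
    ∃ a : ℕ, ∀ σ ∈ (Lf k f).fixingSubgroup, σ ^ 2 ^ a ∈ (RCF k (f * 2 ^ N)).fixingSubgroup

/-- (60 lines) **Theorem DK, assembly of the last descent.** The hypotheses are the conclusions of `S_FT`,
`S_MN1`, `DI.PI.S_Up` and `S_I`. Start from `DI/PI/FinD.lean`.
PROOF. Let `F ≤ Wf k` be a number field; `f`, `N` from the first, so `F ≤ RCF k (f 2 ^ N)`. `XFinGen 2 (cyc 2 (Lf k f))` by
`S_I`; `S_JPe` with `k = KQ k`, `E = Lf k f`, `L = RCF k (f 2 ^ N)`: `XFinGen 2 (cyc 2 (RCF _ _))`; `S_Up` for `F ≤ RCF _ _`. -/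
def S_FinD : Prop :=
  DI.PI.S_JPe → ThmA → S_I →
  (∀ (k : ℕ) [SqK k] (F : IntermediateField ℚ Om), FiniteDimensional ℚ F → F ≤ Wf k →
    ∃ f N : ℕ, Odd f ∧ 3 ≤ f ∧ F ≤ RCF k (f * 2 ^ N)) →
  (∀ (k : ℕ) [SqK k] (f N : ℕ), Odd f → 3 ≤ f → FiniteDimensional ℚ (RCF k (f * 2 ^ N)) ∧
    (∀ σ ∈ (KQ k).fixingSubgroup, ∀ x ∈ RCF k (f * 2 ^ N), σ x ∈ RCF k (f * 2 ^ N)) ∧
    KQ k ≤ Lf k f ∧ Lf k f ≤ RCF k (f * 2 ^ N) ∧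
    ∃ a : ℕ, ∀ σ ∈ (Lf k f).fixingSubgroup, σ ^ 2 ^ a ∈ (RCF k (f * 2 ^ N)).fixingSubgroup) →
  (∀ (F L : IntermediateField ℚ Om), FiniteDimensional ℚ L → F ≤ L → XFinGen 2 (cyc 2 L) →
    XFinGen 2 (cyc 2 F)) → ThmDK

end Pool.Agent.DK.PI
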